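import Mathlib
import Pool.Agent.D0H44.EL.Ces
import Pool.Agent.D0H44.EM.Stm

/-! Project FR (MP_848d44_nt slot 2): for EVERY residue `a ≤ Q`, the variance over the moduli
`q ∈ (Q, 2 Q]` of `ψ(u; q, a) - u / φ(q)` is at least `c (x / Q) / (log x) ^ 2`
(`x ^ (5/6 + ε) ≤ Q ≤ x ^ (1 - ε)`). Definitions and statements of the packages. -/

open Finset MeasureTheory

namespace Pool.Agent.D0H44.FR

open Pool.Agent.H398R2.BV Pool.Agent.H410R2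
open Pool.Agent.D0H44.EL
open Pool.Agent.D0H44.EM (ps Er)

/-- the bump, supported on `[1, 2]`, twice continuously differentiable -/
noncomputable def w (s : ℝ) : ℝ := (max 0 (4 * ((2 - s) * (s - 1)))) ^ 3

noncomputable def w1 (s : ℝ) : ℝ := 12 * (max 0 (4 * ((2 - s) * (s - 1)))) ^ 2 * (3 - 2 * s)

noncomputable def w2 (s : ℝ) : ℝ := 96 * max 0 (4 * ((2 - s) * (s - 1))) * (3 - 2 * s) ^ 2 -
  24 * (max 0 (4 * ((2 - s) * (s - 1)))) ^ 2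

/-- package WT, part 1 -/
def S_W : Prop :=
  (∀ s, HasDerivAt w (w1 s) s) ∧ (∀ s, HasDerivAt w1 (w2 s) s) ∧ Continuous w2 ∧
  (∀ s, 0 ≤ w s ∧ w s ≤ 1) ∧ (∀ s, |w1 s| ≤ 12) ∧ (∀ s, |w2 s| ≤ 120) ∧
  (∀ s, (s ≤ 1 ∨ 2 ≤ s) → w s = 0 ∧ w1 s = 0 ∧ w2 s = 0) ∧
  (∀ s, 5 / 4 ≤ s → s ≤ 9 / 5 → 1 / 4 ≤ w s)

/-- the weight of `n` on the line `n = a + l q` -/
noncomputable def om (x : ℝ) (Q a l : ℕ) (y : ℝ) : ℝ :=
  w (y / x) * w ((y - a) / ((l : ℝ) * Q))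

noncomputable def om1 (x : ℝ) (Q a l : ℕ) (y : ℝ) : ℝ :=
  1 / x * w1 (y / x) * w ((y - a) / ((l : ℝ) * Q)) +
  1 / ((l : ℝ) * Q) * (w (y / x) * w1 ((y - a) / ((l : ℝ) * Q)))

noncomputable def om2 (x : ℝ) (Q a l : ℕ) (y : ℝ) : ℝ :=
  1 / x ^ 2 * w2 (y / x) * w ((y - a) / ((l : ℝ) * Q)) +
  2 / (x * ((l : ℝ) * Q)) * (w1 (y / x) * w1 ((y - a) / ((l : ℝ) * Q))) +
  1 / ((l : ℝ) * Q) ^ 2 * (w (y / x) * w2 ((y - a) / ((l : ℝ) * Q)))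

/-- package WT, part 2. On the support `y ∈ (x, 2x)` and `(y - a) / (l Q) < 2`, so
`l Q > (y - a) / 2 ≥ y / 4` and `1 / (l Q) ≤ 4 / y`, `1 / x ≤ 2 / y`. -/
def S_OM : Prop := ∀ (x : ℝ) (Q a l : ℕ), 1 ≤ x → 1 ≤ Q → 1 ≤ l → (a : ℝ) ≤ x / 2 →
  (∀ y, HasDerivAt (om x Q a l) (om1 x Q a l y) y) ∧
  (∀ y, HasDerivAt (om1 x Q a l) (om2 x Q a l y) y) ∧ Continuous (om2 x Q a l) ∧
  (∀ y, 0 ≤ om x Q a l y ∧ om x Q a l y ≤ 1) ∧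
  (∀ y, (y ≤ x ∨ 2 * x ≤ y) → om x Q a l y = 0) ∧
  (∀ y, 0 < y → |om1 x Q a l y + y * om2 x Q a l y| ≤ 5000 / y)

/-- the integral of `psiLog` (`PG` of `EL/Ces.lean` is its continuous form) -/
noncomputable def II (Y : ℝ) (f : ℕ) (ψ : DirichletCharacter ℂ f) : ℝ :=
  ∫ y in (1 : ℝ)..Y, ‖PG ⌊Y⌋₊ f ψ y‖ / y

/-- the sum over a character with the weight `o` -/
noncomputable def SS (M : ℕ) (o : ℝ → ℝ) (f : ℕ) (ψ : DirichletCharacter ℂ f) : ℂ :=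
  ∑ n ∈ Icc 1 M, ((ArithmeticFunction.vonMangoldt n : ℝ) : ℂ) * ψ (n : ZMod f) * ((o n : ℝ) : ℂ)

/-- package PS, part 1: partial summation. With `Φ(y) = y o'(y)`:
`o(n) = ∫_n^Y log(y / n) Φ'(y) dy = ∫_1^Y max (log (y / n)) 0 * (o1 y + y o2 y) dy` for
`1 ≤ n ≤ Y` (the derivative of `log(y / n) y o1(y) - o(y)` is `log(y / n) (o1 y + y o2 y)`, and
`o`, `o1` vanish at `Y`); sum over `n` as in `EL.CX_eq`. -/
def S_PS : Prop := ∀ (o o1 o2 : ℝ → ℝ) (C Y : ℝ) (M : ℕ), 1 ≤ Y → Y ≤ M → 0 ≤ C →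
  (∀ y, HasDerivAt o (o1 y) y) → (∀ y, HasDerivAt o1 (o2 y) y) → Continuous o2 →
  (∀ y, Y ≤ y → o y = 0) → (∀ y, 1 ≤ y → y ≤ Y → |o1 y + y * o2 y| ≤ C / y) →
  ∀ (f : ℕ) (ψ : DirichletCharacter ℂ f), ‖SS M o f ψ‖ ≤ C * II Y f ψ

/-- package PS, part 2 (as `EL.CX_sum`) -/
def S_IS : Prop := ∀ (S : Finset ℕ) (Y B : ℝ), 1 ≤ Y →
  (∀ y : ℝ, 1 ≤ y → y ≤ Y → ∑ f ∈ S, ∑ ψ ∈ Prim f, ‖psiLog y f ψ‖ ≤ B) →
  ∑ f ∈ S, ∑ ψ ∈ Prim f, II Y f ψ ≤ B * Real.log Y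

/-- package CH: the class modulo `l r` against the class modulo `l`: only the characters whose
conductor does not divide `l` remain. Adapt `TaskC.sum_char_eq`, `key`, `psiPhi_changeLevel_eq`,
`nc_bound`, `EPhi_prim` of `Pool/Agent/H312R2/RG/C.lean` (general weight instead of `Phi`),
for the moduli `l r` and `l`, and subtract (`φ(l r) = φ(l) (r - 1)`). -/
def S_CH : Prop := ∀ (M l r c : ℕ) (o : ℝ → ℝ), 1 ≤ M → 1 ≤ l → r.Prime → ¬ r ∣ l →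
  c.Coprime (l * r) → (∀ y, 0 ≤ o y ∧ o y ≤ 1) →
  |(∑ n ∈ (Icc 1 M).filter (fun n => n ≡ c [MOD (l * r)]),
      ArithmeticFunction.vonMangoldt n * o n) - 1 / ((r : ℝ) - 1) *
    ∑ n ∈ (Icc 1 M).filter (fun n => n ≡ c [MOD l]), ArithmeticFunction.vonMangoldt n * o n| ≤
  1 / (Nat.totient (l * r) : ℝ) * ∑ f ∈ (l * r).divisors.filter (fun f => ¬ f ∣ l),
    ∑ ψ ∈ Prim f, ‖SS M o f ψ‖ + 4 * ((l * r).primeFactors.card * Real.log M)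

/-- package SM: sums over moduli `l r`. If `f ∣ l r`, `f ∤ l` then `f = d r` with `d ∣ l`;
`φ(l r) = φ(l) (r - 1)`, `φ(d m) ≥ φ(d) φ(m)`, `∑_{m ≤ L} 1 / φ(m) ≤ (1 + log L) ^ 2`
(`sum_inv_tot` in `Pool/Agent/H316R2/Bv.lean`), `1 / φ(f) ≤ 2 (1 + log f) / f` (`inv_tot` in
`Pool/Agent/H442R2/EHI/Model.lean`); `(d, r) ↦ d r` is injective as `d ≤ L < R < r`; then
`∑_{R < f ≤ 2 L R} X f / f` by Abel summation is at most `2 A / R + B (2 + log (2 L R)) +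
4 C L R`. -/
def S_SM : Prop := ∀ (L R : ℕ) (G : Finset ℕ) (X : ℕ → ℝ) (A B C : ℝ), 1 ≤ L → L < R →
  (∀ r ∈ G, r.Prime ∧ R < r ∧ r ≤ 2 * R) → (∀ f, 0 ≤ X f) → 0 ≤ A → 0 ≤ B → 0 ≤ C →
  (∀ t : ℕ, R ≤ t → t ≤ 2 * L * R → ∑ f ∈ Icc 2 t, X f ≤ A + B * t + C * (t : ℝ) ^ 2) →
  ∑ l ∈ Icc 1 L, ∑ r ∈ G, 1 / (Nat.totient (l * r) : ℝ) *
    ∑ f ∈ (l * r).divisors.filter (fun f => ¬ f ∣ l), X f ≤
  100 * (1 + Real.log ((2 * L * R : ℕ) : ℝ)) ^ 4 * (A / R + B + C * ((L : ℝ) * R))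

/-- the test function on the moduli -/
noncomputable def FF (G KK : Finset ℕ) (kp : ℕ → ℕ) (a q : ℕ) : ℝ :=
  ∑ k ∈ KK, ∑ r ∈ G, ((if r ∣ k * q + a then (1 : ℝ) else 0) -
    (if r ∣ kp k * q + a then (1 : ℝ) else 0))

/-- package NF: its second moment. Expand the square; for `r ≠ r'` each of the four products
counts a class modulo `r r'` (`Q / (r r') + O(1)`), so the sum over `q` is at most `4`; for
`r = r'` two conditions with different `κ ≠ κ'` (both `< r`, `r ∤ a`) exclude each other, and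
what remains is `2 (Q / r + 1)` for `k = k'`. -/
def S_NF : Prop := ∀ (Q a R : ℕ) (G KK : Finset ℕ) (kp : ℕ → ℕ), 1 ≤ Q → 1 ≤ R →
  (∀ r ∈ G, r.Prime ∧ R < r ∧ r ≤ 2 * R) → (∀ r ∈ G, ¬ r ∣ a) →
  (∀ k ∈ KK, 1 ≤ k ∧ k < R ∧ 1 ≤ kp k ∧ kp k < R) → Set.InjOn kp KK →
  (∀ k ∈ KK, ∀ k2 ∈ KK, k ≠ kp k2) →
  ∑ q ∈ Ioc Q (2 * Q), FF G KK kp a q ^ 2 ≤
    KK.card * G.card * (2 * ((Q : ℝ) / R + 1)) + 4 * ((KK.card : ℝ) * G.card) ^ 2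

/-- package AV: averages of `1 / φ(q)`. `1_{(q,a)=1} q / φ(q) = ∑_{D ∣ q} v(D)` with `v`
multiplicative, supported on squarefree `D`, `v(p) = -1` for `p ∣ a` and `1 / (p - 1)` else, so
`∑_{D ≤ 2Q} |v(D)| ≤ 2 ^ ω(a) (1 + log 2Q) ^ 2`; for `r ∣ D` both conditions fail, and for
`r ∤ D` the difference of the sums of `w(q / Q) / q` (variation at most `4 / Q`) over two classes
modulo `r` of the multiples `q` of `D` is at most `4 / Q` (interlacing). -/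
def S_AV : Prop := ∀ (Q a r κ κ' : ℕ), 1 ≤ Q → 1 ≤ a → r.Prime → ¬ r ∣ a → ¬ r ∣ κ → ¬ r ∣ κ' →
  |∑ q ∈ (Ioc Q (2 * Q)).filter (fun q => q.Coprime a), w ((q : ℝ) / Q) /
    (Nat.totient q : ℝ) * ((if r ∣ κ * q + a then (1 : ℝ) else 0) -
      (if r ∣ κ' * q + a then (1 : ℝ) else 0))| ≤
  2 ^ a.primeFactors.card * (60 * (1 + Real.log ((2 * Q : ℕ) : ℝ)) ^ 2) / Q

/-- the terms on the line `n = a + l q` with `r ∣ κ q + a` -/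
noncomputable def NN (x : ℝ) (Q a M l r κ : ℕ) : ℝ :=
  ∑ n ∈ (Icc 1 M).filter (fun n => n ≡ a [MOD l] ∧ r ∣ κ * (n - a) + a * l),
    ArithmeticFunction.vonMangoldt n * om x Q a l n

/-- all the terms on the line `n = a + l q` -/
noncomputable def MM (x : ℝ) (Q a M l : ℕ) : ℝ :=
  ∑ n ∈ (Icc 1 M).filter (fun n => n ≡ a [MOD l]),
    ArithmeticFunction.vonMangoldt n * om x Q a l n

/-- the primes in the class `a` modulo `q`, with the weight -/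
noncomputable def PP (x : ℝ) (a M q : ℕ) : ℝ :=
  ∑ n ∈ (Icc 1 M).filter (fun n => n ≡ a [MOD q]),
    ArithmeticFunction.vonMangoldt n * w ((n : ℝ) / x)

/-- package RG: regrouping by `l = (n - a) / q`; only `x < n < 2x` count, so `n > a` and
`1 ≤ l ≤ 2x / Q ≤ L`; `l (κ q + a) = κ (n - a) + a l` and `r ∤ l`. -/
def S_RG : Prop := ∀ (x : ℝ) (Q a M L r κ : ℕ), 1 ≤ x → 1 ≤ Q → 1 ≤ a → (a : ℝ) ≤ x →
  2 * x ≤ M → 2 * x ≤ (L : ℝ) * Q → r.Prime → L < r →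
  ∑ q ∈ Ioc Q (2 * Q), w ((q : ℝ) / Q) * (if r ∣ κ * q + a then (1 : ℝ) else 0) * PP x a M q =
    ∑ l ∈ Icc 1 L, NN x Q a M l r κ

/-- the error for one pair `l`, `r` -/
noncomputable def Dl (Y : ℝ) (M l r : ℕ) : ℝ :=
  1 / (Nat.totient (l * r) : ℝ) * ∑ f ∈ (l * r).divisors.filter (fun f => ¬ f ∣ l),
    ∑ ψ ∈ Prim f, 5000 * II Y f ψ + 20 * Real.log M ^ 2

/-- package CL: evaluation of `NN`. `n > a` on the support of `om`. For `κ ≠ l` the condition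
`r ∣ κ (n - a) + a l` is `n ≡ b (mod r)`, `b κ ≡ a (κ - l)`, `r ∤ b`; if `(a, l) = 1` take `c`
with `c ≡ a (mod l)`, `c ≡ b (mod r)` and use CH, PS, OM; if `(a, l) > 1` both sums are at most
`∑_{(n, l) > 1} Λ(n) ≤ 2 log l log M` (`sum_not_coprime`, `omega_le_log` of `H398R2/BA1`).
For `κ = l` the condition is `r ∣ n`. -/
def S_CL : Prop := ∀ (x : ℝ) (Q a M l r κ : ℕ), 1 ≤ x → 1 ≤ Q → 1 ≤ a → (a : ℝ) ≤ x / 2 →
  2 * x ≤ M → 1 ≤ l → 1 ≤ κ → r.Prime → l < r → κ < r → ¬ r ∣ a → r ≤ M →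
  0 ≤ NN x Q a M l r κ ∧
  (κ ≠ l → |NN x Q a M l r κ - 1 / ((r : ℝ) - 1) * MM x Q a M l| ≤ Dl (2 * x) M l r) ∧
  (κ = l → NN x Q a M l r κ ≤ Real.log M)

/-- package PC: primes in `(K, 1.1 K]` (as `EL.primes_dyadic`, with `EL.psi_bds (1 / 1000)`) -/
def S_PC : Prop := ∃ K₀ : ℕ, 1 ≤ K₀ ∧ ∀ K : ℕ, K₀ ≤ K →
  (K : ℝ) / 40 ≤ ((Ioc K (K + K / 10)).filter Nat.Prime).card * Real.log ((2 * K : ℕ) : ℝ)

/-- package MN: the prime number theorem: `om ≥ 1 / 16` on `[1.4 x, 1.6 x]`. -/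
def S_MN : Prop := ∃ X₀ : ℝ, 1 ≤ X₀ ∧ ∀ (x : ℝ) (Q a M k : ℕ), X₀ ≤ x → 2 * x ≤ M →
  (a : ℝ) ≤ x / 100 → 95 / 100 * x ≤ (k : ℝ) * Q → (k : ℝ) * Q ≤ 106 / 100 * x →
  x / 200 ≤ ∑ n ∈ Icc 1 M, ArithmeticFunction.vonMangoldt n * om x Q a k n

/-- package IB, part 1: integration by parts (as `EM.one_class` in `D0H44/EM/Prd.lean`) -/
def S_IB : Prop := ∀ (x : ℝ) (q a M : ℕ), 1 ≤ x → 1 ≤ q → 2 * x ≤ M →
  ∫ u in x..(2 * x), Er q a u * (w1 (u / x) / x) =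
    -PP x a M q + 1 / (Nat.totient q : ℝ) * ∫ u in x..(2 * x), w (u / x)

/-- package IB, part 2: Cauchy-Schwarz (`|w1 (u / x) / x| ≤ 12 / x`) -/
def S_CS : Prop := ∀ (x : ℝ) (a : ℕ) (S : Finset ℕ) (c : ℕ → ℝ), 1 ≤ x → (∀ q ∈ S, 1 ≤ q) →
  (∑ q ∈ S, c q * ∫ u in x..(2 * x), Er q a u * (w1 (u / x) / x)) ^ 2 ≤
    (∑ q ∈ S, ∫ u in x..(2 * x), Er q a u ^ 2) * ((∑ q ∈ S, c q ^ 2) * (144 / x))

/-- package NC: the moduli not coprime to `a`: `n ≡ a (mod q)` then has a common factor with `a`,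
and each `n` comes from at most `L` moduli (`l = (n - a) / q ≤ L`). -/
def S_NC : Prop := ∀ (x : ℝ) (Q a M L : ℕ), 1 ≤ x → 1 ≤ Q → 1 ≤ a → (a : ℝ) ≤ x →
  2 * x ≤ M → 2 * x ≤ (L : ℝ) * Q → 1 ≤ M →
  ∑ q ∈ (Ioc Q (2 * Q)).filter (fun q => ¬ q.Coprime a), PP x a M q ≤
    L * (a.primeFactors.card * Real.log M)

end Pool.Agent.D0H44.FR
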