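import Mathlib
import Pool.Agent.D0H44.FR.Stm

/-! The sums over the characters. -/

open Finset MeasureTheory

namespace Pool.Agent.D0H44.FR

open Pool.Agent.H398R2.BV Pool.Agent.H410R2
open Pool.Agent.D0H44.EL
open Pool.Agent.D0H44.EM (ps Er)

/-- the sums over the characters -/
theorem XB (hIS : S_IS) (m J : ℕ) (t L Z : ℝ) (hZ : Z = t ^ (6 * m)) (ht1 : 1 ≤ t)
    (hL1 : 1 ≤ L) (hLZ : L = 1 + Real.log Z) (hJ : (J : ℝ) ≤ t ^ (2 * m)) (j : ℕ) (hj1 : 1 ≤ j)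
    (hjJ : j ≤ J) :
    ∑ f ∈ Icc 2 j, ∑ ψ ∈ Prim f, 5000 * II Z f ψ ≤
      60000 * (Z * L ^ 5) + 240000 * (t ^ (5 * m) * L ^ 5) * j +
        140000 * (t ^ (3 * m) * L ^ 5) * (j : ℝ) ^ 2 := by
  have ht0 : 0 < t := by linarith
  have hZ1 : 1 ≤ Z := by rw [hZ]; exact one_le_pow₀ ht1
  have hj0 : (1 : ℝ) ≤ j := by exact_mod_cast hj1
  have hjJ' : (j : ℝ) ≤ J := by exact_mod_cast hjJ
  obtain ⟨U, hU1, hU2⟩ : ∃ U : ℕ, t ^ (2 * m) ≤ U ∧ (U : ℝ) ≤ 2 * t ^ (2 * m) := by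
    refine ⟨⌈t ^ (2 * m)⌉₊, Nat.le_ceil _, ?_⟩
    have h1 := Nat.ceil_lt_add_one (by positivity : 0 ≤ t ^ (2 * m))
    have h2 : 1 ≤ t ^ (2 * m) := one_le_pow₀ ht1
    linarith
  have hUr : (1 : ℝ) ≤ U := (one_le_pow₀ ht1).trans hU1
  have hU : 1 ≤ U := by exact_mod_cast hUr
  have hjZ : (j : ℝ) ≤ Z := by
    refine (hjJ'.trans hJ).trans ?_
    rw [hZ]
    exact pow_le_pow_right₀ ht1 (by omega)
  have hlj : 1 + Real.log j ≤ L := by
    have := Real.log_le_log (by linarith) hjZ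
    linarith
  have hlj0 : 0 ≤ Real.log j := Real.log_nonneg hj0
  have hsj : Real.sqrt j ≤ t ^ m := by
    rw [Real.sqrt_le_left (by positivity)]
    calc (j : ℝ) ≤ t ^ (2 * m) := hjJ'.trans hJ
      _ = (t ^ m) ^ 2 := by ring
  set B : ℝ := (j : ℝ) ^ 2 * (8 * (2 * t ^ (2 * m)) * (t ^ m * L) * L ^ 2) +
    12 * (t ^ (3 * m) + j * (2 * t ^ (2 * m) + 2 * t ^ (2 * m)) + (j : ℝ) ^ 2) *
      (t ^ (3 * m) * L ^ 4) with hB
  have key : ∀ y : ℝ, 1 ≤ y → y ≤ Z → ∑ f ∈ Icc 2 j, ∑ ψ ∈ Prim f, ‖psiLog y f ψ‖ ≤ B := by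
    intro y hy1 hyZ
    refine (eng y hy1 U j hU hj1).trans ?_
    have hly : Real.log y ≤ L := by
      have := Real.log_le_log (by linarith) hyZ
      linarith
    have hly1 : 1 + Real.log y ≤ L := by
      have := Real.log_le_log (by linarith) hyZ
      linarith
    have hly0 : 0 ≤ Real.log y := Real.log_nonneg hy1
    have hsy : Real.sqrt y ≤ t ^ (3 * m) := by
      rw [Real.sqrt_le_left (by positivity)]
      have : (t ^ (3 * m)) ^ 2 = t ^ (6 * m) := by ring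
      rw [this, ← hZ]
      exact hyZ
    have hsyU : Real.sqrt (y / U) ≤ t ^ (2 * m) := by
      rw [Real.sqrt_le_left (by positivity), div_le_iff₀ (by linarith)]
      have h1 : (t ^ (2 * m)) ^ 2 * t ^ (2 * m) = t ^ (6 * m) := by ring
      calc y ≤ t ^ (6 * m) := by rw [← hZ]; exact hyZ
        _ = (t ^ (2 * m)) ^ 2 * t ^ (2 * m) := h1.symm
        _ ≤ _ := by gcongr
    rw [hB]
    gcongr
  have h := hIS (Icc 2 j) Z B hZ1 key
  have hlZ : Real.log Z ≤ L := by linarith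
  have hlZ0 : 0 ≤ Real.log Z := Real.log_nonneg hZ1
  have hB0 : 0 ≤ B := by rw [hB]; positivity
  have h2 : ∑ f ∈ Icc 2 j, ∑ ψ ∈ Prim f, 5000 * II Z f ψ ≤ 5000 * (B * L) := by
    simp_rw [← mul_sum]
    apply mul_le_mul_of_nonneg_left _ (by norm_num)
    exact h.trans (mul_le_mul_of_nonneg_left hlZ hB0)
  refine h2.trans ?_
  have e : 5000 * (B * L) = 80000 * (t ^ (3 * m) * L ^ 4) * (j : ℝ) ^ 2 +
      60000 * (t ^ (6 * m) * L ^ 5) + 240000 * (t ^ (5 * m) * L ^ 5) * j +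
      60000 * (t ^ (3 * m) * L ^ 5) * (j : ℝ) ^ 2 := by
    rw [hB]
    ring
  rw [e, ← hZ]
  have h3 : t ^ (3 * m) * L ^ 4 ≤ t ^ (3 * m) * L ^ 5 := by
    apply mul_le_mul_of_nonneg_left _ (by positivity)
    exact pow_le_pow_right₀ hL1 (by norm_num)
  have h4 : 80000 * (t ^ (3 * m) * L ^ 4) * (j : ℝ) ^ 2 ≤
      80000 * (t ^ (3 * m) * L ^ 5) * (j : ℝ) ^ 2 := by gcongr
  linarith

/-- the terms on the line `l = k` -/
theorem MM_lower (hOM : S_OM) (hPS : S_PS) (hCH : S_CH) (x : ℝ) (Q a M k : ℕ) (hx : 1 ≤ x)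
    (hQ : 1 ≤ Q) (hax : (a : ℝ) ≤ x / 2) (hM : 2 * x ≤ M) (hk : k.Prime) (hka : ¬ k ∣ a) (V : ℝ)
    (hV : V ≤ ∑ n ∈ Icc 1 M, ArithmeticFunction.vonMangoldt n * om x Q a k n) :
    1 / ((k : ℝ) - 1) * V - 1 / ((k : ℝ) - 1) * ∑ ψ ∈ Prim k, 5000 * II (2 * x) k ψ -
      4 * Real.log M ≤ MM x Q a M k := by
  obtain ⟨o1, o2, o3, o4, o5, o6⟩ := hOM x Q a k hx hQ hk.one_le hax
  have hM1 : 1 ≤ M := by
    have : (1 : ℝ) ≤ M := by linarith
    exact_mod_cast this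
  have h := hCH M 1 k a (om x Q a k) hM1 le_rfl hk
    (fun h => hk.one_lt.ne' (Nat.dvd_one.1 h))
    (by rw [one_mul]; exact ((Nat.Prime.coprime_iff_not_dvd hk).2 hka).symm) o4
  have hss : ∀ (f : ℕ) (ψ : DirichletCharacter ℂ f), ‖SS M (om x Q a k) f ψ‖ ≤
      5000 * II (2 * x) f ψ :=
    hPS (om x Q a k) (om1 x Q a k) (om2 x Q a k) 5000 (2 * x) M (by linarith) hM (by norm_num)
      o1 o2 o3 (fun y hy => o5 y (Or.inr hy)) (fun y hy1 _ => o6 y (by linarith))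
  rw [one_mul] at h
  have hdiv : k.divisors.filter (fun f => ¬ f ∣ 1) = {k} := by
    rw [hk.divisors]
    ext f
    simp only [mem_filter, mem_insert, mem_singleton, Nat.dvd_one]
    constructor
    · rintro ⟨h1 | h1, h2⟩
      · exact absurd h1 h2
      · exact h1
    · rintro rfl
      exact ⟨Or.inr rfl, hk.one_lt.ne'⟩
  rw [hdiv, sum_singleton, Nat.totient_prime hk, hk.primeFactors, card_singleton] at h
  have hk1 : (1 : ℝ) < k := by exact_mod_cast hk.one_lt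
  have e1 : ((k - 1 : ℕ) : ℝ) = (k : ℝ) - 1 := by
    rw [Nat.cast_sub hk.one_le]
    simp
  rw [e1] at h
  have e2 : ∑ n ∈ (Icc 1 M).filter (fun n => n ≡ a [MOD 1]),
      ArithmeticFunction.vonMangoldt n * om x Q a k n =
      ∑ n ∈ Icc 1 M, ArithmeticFunction.vonMangoldt n * om x Q a k n := by
    rw [filter_true_of_mem]
    intro n _
    exact Nat.modEq_one
  rw [e2] at h
  have hk0 : 0 ≤ 1 / ((k : ℝ) - 1) := by
    have : 0 < (k : ℝ) - 1 := by linarith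
    positivity
  have h1 := (abs_le.1 h).1
  have h2 : 1 / ((k : ℝ) - 1) * ∑ ψ ∈ Prim k, ‖SS M (om x Q a k) k ψ‖ ≤
      1 / ((k : ℝ) - 1) * ∑ ψ ∈ Prim k, 5000 * II (2 * x) k ψ := by
    apply mul_le_mul_of_nonneg_left _ hk0
    exact sum_le_sum fun ψ _ => hss k ψ
  have h3 := mul_le_mul_of_nonneg_left hV hk0
  unfold MM
  push_cast at h1
  linarith

/-- the sum over the primes `k` -/
theorem MM_sum (hOM : S_OM) (hPS : S_PS) (hCH : S_CH) (x : ℝ) (Q a M K : ℕ) (KK : Finset ℕ)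
    (hx : 1 ≤ x) (hQ : 1 ≤ Q) (hax : (a : ℝ) ≤ x / 2) (hM : 2 * x ≤ M) (hK : 1 ≤ K)
    (hKK : ∀ k ∈ KK, k.Prime ∧ K < k ∧ k ≤ K + K / 10 ∧ ¬ k ∣ a) (V E : ℝ) (hV0 : 0 ≤ V)
    (hV : ∀ k ∈ KK, V ≤ ∑ n ∈ Icc 1 M, ArithmeticFunction.vonMangoldt n * om x Q a k n)
    (hE : ∑ f ∈ Icc 2 (K + K / 10), ∑ ψ ∈ Prim f, 5000 * II (2 * x) f ψ ≤ E) :
    KK.card * (V / (2 * K)) - E / K - 4 * KK.card * Real.log M ≤ ∑ k ∈ KK, MM x Q a M k := by
  have hK0 : (1 : ℝ) ≤ K := by exact_mod_cast hK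
  have hII : ∀ f, 0 ≤ ∑ ψ ∈ Prim f, 5000 * II (2 * x) f ψ := by
    intro f
    apply sum_nonneg
    intro ψ _
    have : 0 ≤ II (2 * x) f ψ := by
      unfold II
      apply intervalIntegral.integral_nonneg (by linarith)
      intro u hu
      have : 0 ≤ u := by linarith [hu.1]
      positivity
    positivity
  have h1 : ∀ k ∈ KK, V / (2 * K) - 1 / K * ∑ ψ ∈ Prim k, 5000 * II (2 * x) k ψ -
      4 * Real.log M ≤ MM x Q a M k := by
    intro k hk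
    obtain ⟨g1, g2, g3, g4⟩ := hKK k hk
    have h := MM_lower hOM hPS hCH x Q a M k hx hQ hax hM g1 g4 V (hV k hk)
    have k1 : (K : ℝ) ≤ (k : ℝ) - 1 := by
      have : (K : ℝ) + 1 ≤ k := by exact_mod_cast g2
      linarith
    have k2 : (k : ℝ) - 1 ≤ 2 * K := by
      have : k ≤ 2 * K := by omega
      have : (k : ℝ) ≤ 2 * K := by exact_mod_cast this
      linarith
    have k3 : V / (2 * K) ≤ 1 / ((k : ℝ) - 1) * V := by
      rw [div_mul_eq_mul_div, one_mul]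
      apply div_le_div_of_nonneg_left hV0 (by linarith) k2
    have k4 : 1 / ((k : ℝ) - 1) * ∑ ψ ∈ Prim k, 5000 * II (2 * x) k ψ ≤
        1 / K * ∑ ψ ∈ Prim k, 5000 * II (2 * x) k ψ := by
      apply mul_le_mul_of_nonneg_right _ (hII k)
      apply div_le_div_of_nonneg_left (by norm_num) (by linarith) k1
    linarith
  have h2 := sum_le_sum h1
  rw [sum_sub_distrib, sum_sub_distrib, sum_const, sum_const, nsmul_eq_mul, nsmul_eq_mul,
    ← mul_sum] at h2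
  have h3 : ∑ k ∈ KK, ∑ ψ ∈ Prim k, 5000 * II (2 * x) k ψ ≤ E := by
    refine le_trans ?_ hE
    apply sum_le_sum_of_subset_of_nonneg
    · intro k hk
      obtain ⟨g1, g2, g3, g4⟩ := hKK k hk
      rw [mem_Icc]
      exact ⟨g1.two_le, g3⟩
    · intro f _ _
      exact hII f
  have h4 : 1 / (K : ℝ) * ∑ k ∈ KK, ∑ ψ ∈ Prim k, 5000 * II (2 * x) k ψ ≤ E / K := by
    rw [div_mul_eq_mul_div, one_mul]
    gcongr
  linarith

end Pool.Agent.D0H44.FR
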