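import Mathlib
import Pool.Agent.D0H44.FR.Stm

/-! The lower bound for the sum with the test functions. -/

open Finset MeasureTheory

namespace Pool.Agent.D0H44.FR

open Pool.Agent.H398R2.BV Pool.Agent.H410R2
open Pool.Agent.D0H44.EL
open Pool.Agent.D0H44.EM (ps Er)

/-- the coefficients -/
noncomputable def cc (G KK : Finset ℕ) (kp : ℕ → ℕ) (a Q q : ℕ) : ℝ :=
  w ((q : ℝ) / Q) * FF G KK kp a q

theorem FF_abs (G KK : Finset ℕ) (kp : ℕ → ℕ) (a q : ℕ) :
    |FF G KK kp a q| ≤ KK.card * G.card := by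
  unfold FF
  refine (abs_sum_le_sum_abs _ _).trans ?_
  calc ∑ k ∈ KK, |∑ r ∈ G, ((if r ∣ k * q + a then (1 : ℝ) else 0) -
        (if r ∣ kp k * q + a then (1 : ℝ) else 0))| ≤ ∑ k ∈ KK, (G.card : ℝ) := by
        apply sum_le_sum
        intro k _
        refine (abs_sum_le_sum_abs _ _).trans ?_
        calc _ ≤ ∑ r ∈ G, (1 : ℝ) := by
              apply sum_le_sum
              intro r _
              split_ifs <;> norm_num
          _ = _ := by rw [sum_const, nsmul_eq_mul, mul_one]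
    _ = _ := by rw [sum_const, nsmul_eq_mul]

theorem PP_nonneg (hW : S_W) (x : ℝ) (a M q : ℕ) : 0 ≤ PP x a M q := by
  unfold PP
  apply sum_nonneg
  intro n _
  exact mul_nonneg ArithmeticFunction.vonMangoldt_nonneg (hW.2.2.2.1 _).1

theorem om_nonneg (hW : S_W) (x : ℝ) (Q a l : ℕ) (y : ℝ) : 0 ≤ om x Q a l y := by
  unfold om
  exact mul_nonneg (hW.2.2.2.1 _).1 (hW.2.2.2.1 _).1

theorem MM_nonneg (hW : S_W) (x : ℝ) (Q a M l : ℕ) : 0 ≤ MM x Q a M l := by
  unfold MM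
  apply sum_nonneg
  intro n _
  exact mul_nonneg ArithmeticFunction.vonMangoldt_nonneg (om_nonneg hW _ _ _ _ _)

theorem Dl_nonneg (x : ℝ) (M l r : ℕ) (hx : 1 ≤ x) : 0 ≤ Dl x M l r := by
  unfold Dl
  have h : ∀ f (ψ : DirichletCharacter ℂ f), 0 ≤ II x f ψ := by
    intro f ψ
    unfold II
    apply intervalIntegral.integral_nonneg hx
    intro u hu
    have : 0 ≤ u := by linarith [hu.1]
    positivity
  have h2 : 0 ≤ ∑ f ∈ (l * r).divisors.filter (fun f => ¬ f ∣ l),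
    ∑ ψ ∈ Prim f, 5000 * II x f ψ := by
    apply sum_nonneg
    intro f _
    apply sum_nonneg
    intro ψ _
    have := h f ψ
    positivity
  have h3 : 0 ≤ 20 * Real.log M ^ 2 := by positivity
  have h4 : 0 ≤ 1 / (Nat.totient (l * r) : ℝ) := by positivity
  have := mul_nonneg h4 h2
  linarith

/-- the sum over all the moduli, regrouped -/
theorem regroup (hRG : S_RG) (x : ℝ) (Q a M L R : ℕ) (G KK : Finset ℕ) (kp : ℕ → ℕ)
    (hx : 1 ≤ x) (hQ : 1 ≤ Q) (ha : 1 ≤ a) (hax : (a : ℝ) ≤ x) (hM : 2 * x ≤ M)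
    (hLQ : 2 * x ≤ (L : ℝ) * Q) (hLR : L < R) (hG : ∀ r ∈ G, r.Prime ∧ R < r ∧ r ≤ 2 * R) :
    ∑ q ∈ Ioc Q (2 * Q), cc G KK kp a Q q * PP x a M q =
      ∑ k ∈ KK, ∑ r ∈ G, (∑ l ∈ Icc 1 L, NN x Q a M l r k -
        ∑ l ∈ Icc 1 L, NN x Q a M l r (kp k)) := by
  have h : ∀ k ∈ KK, ∀ r ∈ G, ∑ l ∈ Icc 1 L, NN x Q a M l r k -
        ∑ l ∈ Icc 1 L, NN x Q a M l r (kp k) =
      ∑ q ∈ Ioc Q (2 * Q), w ((q : ℝ) / Q) * ((if r ∣ k * q + a then (1 : ℝ) else 0) -
        (if r ∣ kp k * q + a then (1 : ℝ) else 0)) * PP x a M q := by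
    intro k _ r hr
    obtain ⟨h1, h2, _⟩ := hG r hr
    rw [← hRG x Q a M L r k hx hQ ha hax hM hLQ h1 (by omega),
      ← hRG x Q a M L r (kp k) hx hQ ha hax hM hLQ h1 (by omega), ← sum_sub_distrib]
    apply sum_congr rfl
    intro q _
    ring
  rw [sum_congr rfl fun k hk => sum_congr rfl fun r hr => h k hk r hr]
  have h2 : ∀ q ∈ Ioc Q (2 * Q), cc G KK kp a Q q * PP x a M q =
      ∑ k ∈ KK, ∑ r ∈ G, w ((q : ℝ) / Q) * ((if r ∣ k * q + a then (1 : ℝ) else 0) -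
        (if r ∣ kp k * q + a then (1 : ℝ) else 0)) * PP x a M q := by
    intro q _
    unfold cc FF
    rw [mul_sum, sum_mul]
    apply sum_congr rfl
    intro k _
    rw [mul_sum, sum_mul]
  rw [sum_congr rfl h2, sum_comm]
  apply sum_congr rfl
  intro k _
  rw [sum_comm]

/-- one difference -/
theorem one_diff (hW : S_W) (hCL : S_CL) (x : ℝ) (Q a M L R r k κ : ℕ) (hx : 1 ≤ x) (hQ : 1 ≤ Q)
    (ha : 1 ≤ a) (hax : (a : ℝ) ≤ x / 2) (hM : 2 * x ≤ M) (hLR : L < R) (hr : r.Prime)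
    (hRr : R < r) (hra : ¬ r ∣ a) (hrM : r ≤ M) (hk1 : 1 ≤ k) (hkL : k ≤ L) (hκ : L < κ)
    (hκR : κ < R) :
    ∑ l ∈ Icc 1 L, NN x Q a M l r k - ∑ l ∈ Icc 1 L, NN x Q a M l r κ ≤
      Real.log M - 1 / ((r : ℝ) - 1) * MM x Q a M k + 2 * ∑ l ∈ Icc 1 L, Dl (2 * x) M l r := by
  have hr1 : (1 : ℝ) < r := by exact_mod_cast hr.one_lt
  have hr0 : 0 ≤ 1 / ((r : ℝ) - 1) := by
    have : 0 < (r : ℝ) - 1 := by linarith
    positivity
  have hkm : k ∈ Icc 1 L := by rw [mem_Icc]; exact ⟨hk1, hkL⟩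
  have h2x : 1 ≤ 2 * x := by linarith
  have hD : ∀ l, 0 ≤ Dl (2 * x) M l r := fun l => Dl_nonneg _ _ _ _ h2x
  -- the second sum
  have h2 : ∀ l ∈ Icc 1 L, 1 / ((r : ℝ) - 1) * MM x Q a M l - Dl (2 * x) M l r ≤
      NN x Q a M l r κ := by
    intro l hl
    rw [mem_Icc] at hl
    obtain ⟨_, h, _⟩ := hCL x Q a M l r κ hx hQ ha hax hM hl.1 (by omega) hr (by omega) (by omega)
      hra hrM
    have := (abs_le.1 (h (by omega))).1
    linarith
  -- the first sum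
  have h1 : ∀ l ∈ (Icc 1 L).erase k, NN x Q a M l r k ≤
      1 / ((r : ℝ) - 1) * MM x Q a M l + Dl (2 * x) M l r := by
    intro l hl
    rw [mem_erase, mem_Icc] at hl
    obtain ⟨_, h, _⟩ := hCL x Q a M l r k hx hQ ha hax hM hl.2.1 hk1 hr (by omega) (by omega)
      hra hrM
    have := (abs_le.1 (h (fun h => hl.1 h.symm))).2
    linarith
  have h0 : NN x Q a M k r k ≤ Real.log M :=
    (hCL x Q a M k r k hx hQ ha hax hM hk1 hk1 hr (by omega) (by omega) hra hrM).2.2 rfl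
  have e1 := sum_le_sum h1
  have e2 := sum_le_sum h2
  rw [sum_add_distrib] at e1
  rw [sum_sub_distrib] at e2
  have e3 := sum_erase_add (Icc 1 L) (fun l => NN x Q a M l r k) hkm
  have e4 := sum_erase_add (Icc 1 L) (fun l => 1 / ((r : ℝ) - 1) * MM x Q a M l) hkm
  have e5 := sum_erase_add (Icc 1 L) (fun l => Dl (2 * x) M l r) hkm
  have e6 := hD k
  linarith

/-- the sum of the coefficients over `φ(q)` -/
theorem avg (hAV : S_AV) (Q a R : ℕ) (G KK : Finset ℕ) (kp : ℕ → ℕ) (hQ : 1 ≤ Q) (ha : 1 ≤ a)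
    (hG : ∀ r ∈ G, r.Prime ∧ R < r ∧ r ≤ 2 * R) (hGa : ∀ r ∈ G, ¬ r ∣ a)
    (hk : ∀ k ∈ KK, 1 ≤ k ∧ k < R ∧ 1 ≤ kp k ∧ kp k < R) :
    |∑ q ∈ (Ioc Q (2 * Q)).filter (fun q => q.Coprime a), cc G KK kp a Q q /
      (Nat.totient q : ℝ)| ≤ KK.card * G.card *
        (2 ^ a.primeFactors.card * (60 * (1 + Real.log ((2 * Q : ℕ) : ℝ)) ^ 2) / Q) := by
  have e : ∑ q ∈ (Ioc Q (2 * Q)).filter (fun q => q.Coprime a), cc G KK kp a Q q /
      (Nat.totient q : ℝ) = ∑ k ∈ KK, ∑ r ∈ G,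
      ∑ q ∈ (Ioc Q (2 * Q)).filter (fun q => q.Coprime a), w ((q : ℝ) / Q) /
      (Nat.totient q : ℝ) * ((if r ∣ k * q + a then (1 : ℝ) else 0) -
      (if r ∣ kp k * q + a then (1 : ℝ) else 0)) := by
    have h2 : ∀ q ∈ (Ioc Q (2 * Q)).filter (fun q => q.Coprime a), cc G KK kp a Q q /
        (Nat.totient q : ℝ) = ∑ k ∈ KK, ∑ r ∈ G, w ((q : ℝ) / Q) /
        (Nat.totient q : ℝ) * ((if r ∣ k * q + a then (1 : ℝ) else 0) -
        (if r ∣ kp k * q + a then (1 : ℝ) else 0)) := by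
      intro q _
      unfold cc FF
      rw [mul_div_right_comm, mul_sum]
      apply sum_congr rfl
      intro k _
      rw [mul_sum]
    rw [sum_congr rfl h2, sum_comm]
    apply sum_congr rfl
    intro k _
    rw [sum_comm]
  rw [e]
  refine (abs_sum_le_sum_abs _ _).trans ?_
  rw [mul_assoc, ← nsmul_eq_mul, ← sum_const]
  apply sum_le_sum
  intro k hk'
  refine (abs_sum_le_sum_abs _ _).trans ?_
  rw [← nsmul_eq_mul, ← sum_const]
  apply sum_le_sum
  intro r hr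
  obtain ⟨h1, h2, h3, h4⟩ := hk k hk'
  obtain ⟨g1, g2, _⟩ := hG r hr
  exact hAV Q a r k (kp k) hQ ha g1 (hGa r hr)
    (fun h => by have := Nat.le_of_dvd (by omega) h; omega)
    (fun h => by have := Nat.le_of_dvd (by omega) h; omega)

/-- the lower bound for the sum with the test functions -/
theorem T_lower (hW : S_W) (hAV : S_AV) (hRG : S_RG) (hCL : S_CL) (hIB : S_IB) (hNC : S_NC)
    (x : ℝ) (Q a M L R : ℕ) (G KK : Finset ℕ) (kp : ℕ → ℕ)
    (hx : 1 ≤ x) (hQ : 1 ≤ Q) (ha : 1 ≤ a) (hax : (a : ℝ) ≤ x / 2) (hM : 2 * x ≤ M)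
    (hLQ : 2 * x ≤ (L : ℝ) * Q) (hLR : L < R) (hG : ∀ r ∈ G, r.Prime ∧ R < r ∧ r ≤ 2 * R)
    (hGa : ∀ r ∈ G, ¬ r ∣ a) (hRM : 2 * R ≤ M)
    (hk : ∀ k ∈ KK, 1 ≤ k ∧ k ≤ L ∧ L < kp k ∧ kp k < R) :
    ∑ k ∈ KK, ∑ r ∈ G, 1 / ((r : ℝ) - 1) * MM x Q a M k -
      (2 * KK.card * ∑ l ∈ Icc 1 L, ∑ r ∈ G, Dl (2 * x) M l r +
      KK.card * G.card * (Real.log M + L * (a.primeFactors.card * Real.log M) +
        x * (2 ^ a.primeFactors.card * (60 * (1 + Real.log ((2 * Q : ℕ) : ℝ)) ^ 2) / Q))) ≤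
    ∑ q ∈ (Ioc Q (2 * Q)).filter (fun q => q.Coprime a), cc G KK kp a Q q *
      ∫ u in x..(2 * x), Er q a u * (w1 (u / x) / x) := by
  have hM1 : 1 ≤ M := by
    have : (1 : ℝ) ≤ M := by linarith
    exact_mod_cast this
  have hlogM : 0 ≤ Real.log M := Real.log_natCast_nonneg M
  have hk' : ∀ k ∈ KK, 1 ≤ k ∧ k < R ∧ 1 ≤ kp k ∧ kp k < R := by
    intro k hk2
    obtain ⟨h1, h2, h3, h4⟩ := hk k hk2
    exact ⟨h1, by omega, by omega, h4⟩
  set S := (Ioc Q (2 * Q)).filter (fun q => q.Coprime a) with hS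
  set S' := (Ioc Q (2 * Q)).filter (fun q => ¬ q.Coprime a) with hS'
  set W := ∫ u in x..(2 * x), w (u / x) with hWd
  have hW0 : 0 ≤ W := by
    rw [hWd]
    apply intervalIntegral.integral_nonneg (by linarith)
    intro u _
    exact (hW.2.2.2.1 _).1
  have hwc : Continuous w := by
    rw [continuous_iff_continuousAt]
    intro s
    exact (hW.1 s).continuousAt
  have hW1 : W ≤ x := by
    rw [hWd]
    have h1 : ∫ u in x..(2 * x), w (u / x) ≤ ∫ u in x..(2 * x), (1 : ℝ) := by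
      apply intervalIntegral.integral_mono_on (by linarith)
      · apply Continuous.intervalIntegrable
        exact hwc.comp (continuous_id.div_const x)
      · simp
      · intro u _
        exact (hW.2.2.2.1 _).2
    refine h1.trans ?_
    rw [intervalIntegral.integral_const, smul_eq_mul]
    linarith
  -- integration by parts
  have e1 : ∑ q ∈ S, cc G KK kp a Q q * ∫ u in x..(2 * x), Er q a u * (w1 (u / x) / x) =
      W * ∑ q ∈ S, cc G KK kp a Q q / (Nat.totient q : ℝ) -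
      (∑ q ∈ Ioc Q (2 * Q), cc G KK kp a Q q * PP x a M q -
        ∑ q ∈ S', cc G KK kp a Q q * PP x a M q) := by
    have e2 : ∑ q ∈ S, cc G KK kp a Q q * PP x a M q =
        ∑ q ∈ Ioc Q (2 * Q), cc G KK kp a Q q * PP x a M q -
          ∑ q ∈ S', cc G KK kp a Q q * PP x a M q := by
      rw [← sum_filter_add_sum_filter_not (Ioc Q (2 * Q)) (fun q => q.Coprime a)]
      ring
    rw [← e2, mul_sum, ← sum_sub_distrib]
    apply sum_congr rfl
    intro q hq
    rw [hS, mem_filter, mem_Ioc] at hq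
    rw [hIB x q a M hx (by omega) hM]
    ring
  rw [e1]
  have h1 := avg hAV Q a R G KK kp hQ ha hG hGa hk'
  rw [← hS] at h1
  set V1 := ∑ q ∈ S, cc G KK kp a Q q / (Nat.totient q : ℝ) with hV1
  set B1 := 2 ^ a.primeFactors.card * (60 * (1 + Real.log ((2 * Q : ℕ) : ℝ)) ^ 2) / (Q : ℝ)
    with hB1
  have hB10 : 0 ≤ B1 := by positivity
  have h2 : -(KK.card * G.card * (x * B1)) ≤ W * V1 := by
    have h3 : |W * V1| ≤ x * (KK.card * G.card * B1) := by
      rw [abs_mul, abs_of_nonneg hW0]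
      exact mul_le_mul hW1 h1 (abs_nonneg _) (by linarith)
    have := (abs_le.1 h3).1
    have e : x * ((KK.card : ℝ) * G.card * B1) = KK.card * G.card * (x * B1) := by ring
    linarith
  have h3 : -(KK.card * G.card * (L * (a.primeFactors.card * Real.log M))) ≤
      ∑ q ∈ S', cc G KK kp a Q q * PP x a M q := by
    have h4 : |∑ q ∈ S', cc G KK kp a Q q * PP x a M q| ≤
        KK.card * G.card * (L * (a.primeFactors.card * Real.log M)) := by
      refine (abs_sum_le_sum_abs _ _).trans ?_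
      calc ∑ q ∈ S', |cc G KK kp a Q q * PP x a M q| ≤
          ∑ q ∈ S', (KK.card * G.card) * PP x a M q := by
            apply sum_le_sum
            intro q _
            rw [abs_mul, abs_of_nonneg (PP_nonneg hW x a M q)]
            apply mul_le_mul_of_nonneg_right _ (PP_nonneg hW x a M q)
            unfold cc
            rw [abs_mul, abs_of_nonneg (hW.2.2.2.1 _).1]
            calc w ((q : ℝ) / Q) * |FF G KK kp a q| ≤ 1 * (KK.card * G.card) := by
                  apply mul_le_mul (hW.2.2.2.1 _).2 (FF_abs G KK kp a q) (abs_nonneg _)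
                    (by norm_num)
              _ = _ := one_mul _
        _ = (KK.card * G.card) * ∑ q ∈ S', PP x a M q := by rw [mul_sum]
        _ ≤ _ := by
            apply mul_le_mul_of_nonneg_left _ (by positivity)
            exact hNC x Q a M L hx hQ ha (by linarith) hM hLQ hM1
    exact (abs_le.1 h4).1
  have h5 : ∑ q ∈ Ioc Q (2 * Q), cc G KK kp a Q q * PP x a M q ≤
      ∑ k ∈ KK, ∑ r ∈ G, (Real.log M - 1 / ((r : ℝ) - 1) * MM x Q a M k +
        2 * ∑ l ∈ Icc 1 L, Dl (2 * x) M l r) := by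
    rw [regroup hRG x Q a M L R G KK kp hx hQ ha (by linarith) hM hLQ hLR hG]
    apply sum_le_sum
    intro k hk2
    apply sum_le_sum
    intro r hr
    obtain ⟨g1, g2, g3, g4⟩ := hk k hk2
    obtain ⟨f1, f2, f3⟩ := hG r hr
    exact one_diff hW hCL x Q a M L R r k (kp k) hx hQ ha hax hM hLR f1 f2 (hGa r hr) (by omega)
      g1 g2 g3 g4
  have h6 : ∑ k ∈ KK, ∑ r ∈ G, (Real.log M - 1 / ((r : ℝ) - 1) * MM x Q a M k +
        2 * ∑ l ∈ Icc 1 L, Dl (2 * x) M l r) = KK.card * G.card * Real.log M -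
        ∑ k ∈ KK, ∑ r ∈ G, 1 / ((r : ℝ) - 1) * MM x Q a M k +
        2 * KK.card * ∑ l ∈ Icc 1 L, ∑ r ∈ G, Dl (2 * x) M l r := by
    rw [sum_comm (s := Icc 1 L) (t := G)]
    simp_rw [sum_add_distrib, sum_sub_distrib, sum_const, nsmul_eq_mul, ← mul_sum]
    ring
  rw [h6] at h5
  have e7 : (KK.card : ℝ) * G.card * (Real.log M + L * (a.primeFactors.card * Real.log M) +
      x * B1) = KK.card * G.card * Real.log M +
      KK.card * G.card * (L * (a.primeFactors.card * Real.log M)) +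
      KK.card * G.card * (x * B1) := by ring
  have e8 : x * (2 ^ a.primeFactors.card * (60 * (1 + Real.log ((2 * Q : ℕ) : ℝ)) ^ 2) /
      (Q : ℝ)) = x * B1 := by rw [hB1]
  rw [e8, e7]
  linarith

end Pool.Agent.D0H44.FR
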