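import Mathlib
import Pool.Agent.D0H44.FR.Low
import Pool.Agent.D0H44.FR.Bnd
import Pool.Agent.D0H44.EM.Bb

/-! The main estimate. -/

open Finset MeasureTheory

namespace Pool.Agent.D0H44.FR

open Pool.Agent.H398R2.BV Pool.Agent.H410R2
open Pool.Agent.D0H44.EL
open Pool.Agent.D0H44.EM (ps Er)

theorem Q_low (m L : ℕ) (t Z Q : ℝ) (hm : 40 ≤ m) (ht : 1 ≤ t) (hZ : Z = t ^ (6 * m))
    (hLm : (L : ℝ) ≤ t ^ (m - 20)) (hZQ : Z ≤ L * Q) (hQ0 : 0 ≤ Q) :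
    t ^ (5 * m + 20) ≤ Q := by
  have ht0 : 0 < t := by linarith
  have h1 : t ^ (m - 20) * t ^ (5 * m + 20) ≤ t ^ (m - 20) * Q := by
    calc t ^ (m - 20) * t ^ (5 * m + 20) = t ^ (6 * m) := by
          rw [← pow_add]
          congr 1
          omega
      _ = Z := hZ.symm
      _ ≤ L * Q := hZQ
      _ ≤ t ^ (m - 20) * Q := by gcongr
  exact le_of_mul_le_mul_left h1 (by positivity)

/-- the sum over the pairs `l`, `r` -/
theorem Dl_sum (hIS : S_IS) (hSM : S_SM) (m L R M : ℕ) (G : Finset ℕ) (t Lg Z Q : ℝ)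
    (hm : 40 ≤ m) (hZ : Z = t ^ (6 * m)) (hLg1 : 1 ≤ Lg) (hLg : Lg = 1 + Real.log Z)
    (hLt : 10 ^ 6 * Lg ^ 6 ≤ t)
    (hL1 : 1 ≤ L) (hLm : (L : ℝ) ≤ t ^ (m - 20)) (hR1 : t ^ 8 * L ≤ R)
    (hR2 : (R : ℝ) ≤ 2 * (t ^ 8 * L)) (hLR : L < R) (hZQ : Z ≤ L * Q) (hQ0 : 0 ≤ Q)
    (hG : ∀ r ∈ G, r.Prime ∧ R < r ∧ r ≤ 2 * R) (hGc : (G.card : ℝ) ≤ R)
    (hM : Real.log M ≤ 2 * Lg) :
    ∑ l ∈ Icc 1 L, ∑ r ∈ G, Dl Z M l r ≤ Q / t ^ 4 := by
  have ht6 : (10 : ℝ) ^ 6 ≤ t := by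
    have : (1 : ℝ) ≤ Lg ^ 6 := one_le_pow₀ hLg1
    linarith
  have ht1 : (1 : ℝ) ≤ t := by linarith
  have ht0 : 0 < t := by linarith
  have hZ1 : 1 ≤ Z := by rw [hZ]; exact one_le_pow₀ ht1
  have hLr : (1 : ℝ) ≤ L := by exact_mod_cast hL1
  have hR0 : (0 : ℝ) < R := lt_of_lt_of_le (by positivity) hR1
  have hQl := Q_low m L t Z Q hm ht1 hZ hLm hZQ hQ0
  have hQpos : 0 < Q := lt_of_lt_of_le (by positivity) hQl
  have hLR2 : (L : ℝ) * R ≤ 2 * t ^ (2 * m - 32) := by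
    calc (L : ℝ) * R ≤ t ^ (m - 20) * (2 * (t ^ 8 * t ^ (m - 20))) := by
          apply mul_le_mul hLm (hR2.trans _) hR0.le (by positivity)
          gcongr
      _ = 2 * (t ^ (m - 20) * t ^ 8 * t ^ (m - 20)) := by ring
      _ = 2 * t ^ (2 * m - 32) := by
          rw [← pow_add, ← pow_add]
          congr 2
          omega
  have hJ : ((2 * L * R : ℕ) : ℝ) ≤ t ^ (2 * m) := by
    push_cast
    calc 2 * (L : ℝ) * R = 2 * (L * R) := by ring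
      _ ≤ 2 * (2 * t ^ (2 * m - 32)) := by gcongr
      _ = 4 * t ^ (2 * m - 32) := by ring
      _ ≤ t ^ 32 * t ^ (2 * m - 32) := by
          apply mul_le_mul_of_nonneg_right _ (by positivity)
          calc (4 : ℝ) ≤ t := by linarith
            _ = t ^ 1 := (pow_one t).symm
            _ ≤ t ^ 32 := pow_le_pow_right₀ ht1 (by norm_num)
      _ = t ^ (2 * m) := by
          rw [← pow_add]
          congr 1
          omega
  have hJ1 : (1 : ℝ) ≤ ((2 * L * R : ℕ) : ℝ) := by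
    have : 1 ≤ 2 * L * R := by
      have hR' : 1 ≤ R := by omega
      calc 1 = 1 * 1 := rfl
        _ ≤ 2 * L * R := Nat.mul_le_mul (by omega) hR'
    exact_mod_cast this
  have hlJ : 1 + Real.log ((2 * L * R : ℕ) : ℝ) ≤ Lg := by
    have h1 : ((2 * L * R : ℕ) : ℝ) ≤ Z := by
      refine hJ.trans ?_
      rw [hZ]
      exact pow_le_pow_right₀ ht1 (by omega)
    have := Real.log_le_log (by linarith) h1
    linarith
  have hlJ0 : 0 ≤ Real.log ((2 * L * R : ℕ) : ℝ) := Real.log_nonneg hJ1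
  set X : ℕ → ℝ := fun f => ∑ ψ ∈ Prim f, 5000 * II Z f ψ with hX
  have hX0 : ∀ f, 0 ≤ X f := by
    intro f
    rw [hX]
    apply sum_nonneg
    intro ψ _
    have : 0 ≤ II Z f ψ := by
      unfold II
      apply intervalIntegral.integral_nonneg hZ1
      intro u hu
      have : 0 ≤ u := by linarith [hu.1]
      positivity
    positivity
  have h := hSM L R G X (60000 * (Z * Lg ^ 5)) (240000 * (t ^ (5 * m) * Lg ^ 5))
    (140000 * (t ^ (3 * m) * Lg ^ 5)) hL1 hLR hG hX0 (by positivity) (by positivity)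
    (by positivity)
    (fun j hj1 hj2 => XB hIS m (2 * L * R) t Lg Z hZ ht1 hLg1 hLg hJ j (by omega) hj2)
  have e1 : ∑ l ∈ Icc 1 L, ∑ r ∈ G, Dl Z M l r = ∑ l ∈ Icc 1 L, ∑ r ∈ G,
      1 / (Nat.totient (l * r) : ℝ) * ∑ f ∈ (l * r).divisors.filter (fun f => ¬ f ∣ l), X f +
      L * G.card * (20 * Real.log M ^ 2) := by
    unfold Dl
    simp_rw [sum_add_distrib, sum_const, nsmul_eq_mul]
    rw [Nat.card_Icc, Nat.add_sub_cancel]
    ring
  rw [e1]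
  -- the terms
  have b1 : 60000 * (Z * Lg ^ 5) / R ≤ 60000 * (Lg ^ 5 * (Q / t ^ 8)) := by
    rw [div_le_iff₀ hR0]
    calc 60000 * (Z * Lg ^ 5) ≤ 60000 * ((L * Q) * Lg ^ 5) := by gcongr
      _ = 60000 * (Lg ^ 5 * (Q / t ^ 8)) * (t ^ 8 * L) := by
          field_simp
      _ ≤ 60000 * (Lg ^ 5 * (Q / t ^ 8)) * R := by gcongr
  have b2 : 240000 * (t ^ (5 * m) * Lg ^ 5) ≤ 240000 * (Lg ^ 5 * (Q / t ^ 8)) := by
    have h1 : t ^ (5 * m) ≤ Q / t ^ 8 := by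
      rw [le_div_iff₀ (by positivity)]
      calc t ^ (5 * m) * t ^ 8 = t ^ (5 * m + 8) := by ring
        _ ≤ t ^ (5 * m + 20) := pow_le_pow_right₀ ht1 (by omega)
        _ ≤ Q := hQl
    calc 240000 * (t ^ (5 * m) * Lg ^ 5) ≤ 240000 * ((Q / t ^ 8) * Lg ^ 5) := by gcongr
      _ = _ := by ring
  have b3 : 140000 * (t ^ (3 * m) * Lg ^ 5) * (L * R) ≤ 280000 * (Lg ^ 5 * (Q / t ^ 8)) := by
    have h1 : t ^ (3 * m) * t ^ (2 * m - 32) ≤ Q / t ^ 8 := by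
      rw [le_div_iff₀ (by positivity)]
      calc t ^ (3 * m) * t ^ (2 * m - 32) * t ^ 8 = t ^ (3 * m + (2 * m - 32) + 8) := by ring
        _ ≤ t ^ (5 * m + 20) := pow_le_pow_right₀ ht1 (by omega)
        _ ≤ Q := hQl
    calc 140000 * (t ^ (3 * m) * Lg ^ 5) * (L * R) ≤
        140000 * (t ^ (3 * m) * Lg ^ 5) * (2 * t ^ (2 * m - 32)) := by gcongr
      _ = 280000 * (Lg ^ 5 * (t ^ (3 * m) * t ^ (2 * m - 32))) := by ring
      _ ≤ _ := by gcongr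
  have hsum : 100 * (1 + Real.log ((2 * L * R : ℕ) : ℝ)) ^ 4 *
      (60000 * (Z * Lg ^ 5) / R + 240000 * (t ^ (5 * m) * Lg ^ 5) +
        140000 * (t ^ (3 * m) * Lg ^ 5) * ((L : ℝ) * R)) ≤ Q / t ^ 5 := by
    calc _ ≤ 100 * Lg ^ 4 * (60000 * (Lg ^ 5 * (Q / t ^ 8)) + 240000 * (Lg ^ 5 * (Q / t ^ 8)) +
          280000 * (Lg ^ 5 * (Q / t ^ 8))) := by
          gcongr
      _ = (58 * 10 ^ 6 * Lg ^ 9) * (Q / t ^ 8) := by ring
      _ ≤ t ^ 3 * (Q / t ^ 8) := by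
          apply mul_le_mul_of_nonneg_right _ (by positivity)
          have k1 : Lg ^ 9 ≤ Lg ^ 12 := pow_le_pow_right₀ hLg1 (by norm_num)
          have k2 : (10 ^ 6 * Lg ^ 6) ^ 2 ≤ t ^ 2 := by gcongr
          have k3 : (10 ^ 6 * Lg ^ 6) ^ 2 = 10 ^ 12 * Lg ^ 12 := by ring
          have k4 : t ^ 2 ≤ t ^ 3 := pow_le_pow_right₀ ht1 (by norm_num)
          have k5 : 0 ≤ Lg ^ 12 := by positivity
          rw [k3] at k2
          linarith
      _ = Q / t ^ 5 := by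
          field_simp
  have hlast : (L : ℝ) * G.card * (20 * Real.log M ^ 2) ≤ Q / t ^ 5 := by
    have hlM0 : 0 ≤ Real.log M := Real.log_natCast_nonneg M
    rw [le_div_iff₀ (by positivity)]
    calc (L : ℝ) * G.card * (20 * Real.log M ^ 2) * t ^ 5 ≤
        (L : ℝ) * R * (20 * (2 * Lg) ^ 2) * t ^ 5 := by gcongr
      _ ≤ (2 * t ^ (2 * m - 32)) * (20 * (2 * Lg) ^ 2) * t ^ 5 := by gcongr
      _ = (160 * Lg ^ 2) * (t ^ (2 * m - 32) * t ^ 5) := by ring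
      _ ≤ t * (t ^ (2 * m - 32) * t ^ 5) := by
          apply mul_le_mul_of_nonneg_right _ (by positivity)
          have k1 : Lg ^ 2 ≤ Lg ^ 6 := pow_le_pow_right₀ hLg1 (by norm_num)
          have k2 : 0 ≤ Lg ^ 6 := by positivity
          linarith
      _ = t ^ (1 + ((2 * m - 32) + 5)) := by
          rw [← pow_add, ← pow_succ']
          congr 1
          omega
      _ ≤ t ^ (5 * m + 20) := pow_le_pow_right₀ ht1 (by omega)
      _ ≤ Q := hQl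
  have hfin : Q / t ^ 5 + Q / t ^ 5 ≤ Q / t ^ 4 := by
    rw [← add_div, div_le_div_iff₀ (by positivity) (by positivity)]
    calc (Q + Q) * t ^ 4 = 2 * (Q * t ^ 4) := by ring
      _ ≤ t * (Q * t ^ 4) := by gcongr; linarith
      _ = Q * t ^ 5 := by ring
  linarith

/-- the sum of `MM` -/
theorem MM_main (hIS : S_IS) (hOM : S_OM) (hPS : S_PS) (hCH : S_CH) (m L M K Q a : ℕ)
    (KK : Finset ℕ) (t Lg Z x : ℝ)
    (hm : 40 ≤ m) (hZx : Z = 2 * x) (hZ : Z = t ^ (6 * m)) (hLg1 : 1 ≤ Lg)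
    (hLg : Lg = 1 + Real.log Z) (hLt : 10 ^ 6 * Lg ^ 6 ≤ t)
    (hx : 1 ≤ x) (hQ1 : 1 ≤ Q) (hax : (a : ℝ) ≤ x / 2) (hM : 2 * x ≤ M) (hMl : Real.log M ≤ 2 * Lg)
    (hLm : (L : ℝ) ≤ t ^ (m - 20)) (hZQ : Z ≤ L * Q) (hKL : 2 * K ≤ L)
    (hK1 : t ^ 8 ≤ K) (hKQ1 : 95 / 100 * x ≤ (K : ℝ) * Q) (hKQ2 : (K : ℝ) * Q ≤ 96 / 100 * x)
    (hKK : ∀ k ∈ KK, k.Prime ∧ K < k ∧ k ≤ K + K / 10 ∧ ¬ k ∣ a)
    (hKKc : (K : ℝ) ≤ 80 * Lg * KK.card)
    (hV : ∀ k ∈ KK, x / 200 ≤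
      ∑ n ∈ Icc 1 M, ArithmeticFunction.vonMangoldt n * om x Q a k n) :
    KK.card * Q / 500 ≤ ∑ k ∈ KK, MM x Q a M k := by
  have ht6 : (10 : ℝ) ^ 6 ≤ t := by
    have : (1 : ℝ) ≤ Lg ^ 6 := one_le_pow₀ hLg1
    linarith
  have ht1 : (1 : ℝ) ≤ t := by linarith
  have ht0 : 0 < t := by linarith
  have hQ0 : (1 : ℝ) ≤ Q := by exact_mod_cast hQ1
  have hK0 : (1 : ℝ) ≤ K := (one_le_pow₀ ht1).trans hK1
  have hK1' : 1 ≤ K := by exact_mod_cast hK0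
  have hZ1 : 1 ≤ Z := by rw [hZ]; exact one_le_pow₀ ht1
  have hQl := Q_low m L t Z Q hm ht1 hZ hLm hZQ (by linarith)
  have hKLr : 2 * (K : ℝ) ≤ L := by exact_mod_cast hKL
  have hj : K + K / 10 ≤ L := by omega
  have hLt2 : (L : ℝ) ≤ t ^ (2 * m) := hLm.trans (pow_le_pow_right₀ ht1 (by omega))
  have hXB := XB hIS m L t Lg Z hZ ht1 hLg1 hLg hLt2 (K + K / 10) (by omega) hj
  rw [hZx] at hXB
  have h := MM_sum hOM hPS hCH x Q a M K KK hx hQ1 hax hM hK1' hKK (x / 200) _ (by linarith)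
    hV hXB
  refine le_trans ?_ h
  have hjr : ((K + K / 10 : ℕ) : ℝ) ≤ 2 * K := by
    have : K + K / 10 ≤ 2 * K := by omega
    exact_mod_cast this
  rw [← hZx]
  have hZK : Z ≤ 3 * (K * Q) := by rw [hZx]; linarith
  -- the error
  have b1 : 60000 * (Z * Lg ^ 5) ≤ 180000 * (K * (Lg ^ 5 * Q)) := by
    calc 60000 * (Z * Lg ^ 5) ≤ 60000 * ((3 * (K * Q)) * Lg ^ 5) := by gcongr
      _ = _ := by ring
  have b2 : 240000 * (t ^ (5 * m) * Lg ^ 5) * ((K + K / 10 : ℕ) : ℝ) ≤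
      480000 * (K * (Lg ^ 5 * Q)) := by
    have h1 : t ^ (5 * m) ≤ Q := le_trans (pow_le_pow_right₀ ht1 (by omega)) hQl
    calc 240000 * (t ^ (5 * m) * Lg ^ 5) * ((K + K / 10 : ℕ) : ℝ) ≤
        240000 * (Q * Lg ^ 5) * (2 * K) := by gcongr
      _ = _ := by ring
  have b3 : 140000 * (t ^ (3 * m) * Lg ^ 5) * ((K + K / 10 : ℕ) : ℝ) ^ 2 ≤
      280000 * (K * (Lg ^ 5 * Q)) := by
    have h1 : t ^ (3 * m) * (2 * K) ≤ Q := by
      calc t ^ (3 * m) * (2 * K) ≤ t ^ (3 * m) * t ^ (2 * m) := by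
            gcongr
            linarith
        _ = t ^ (5 * m) := by
            rw [← pow_add]
            congr 1
            omega
        _ ≤ Q := le_trans (pow_le_pow_right₀ ht1 (by omega)) hQl
    calc 140000 * (t ^ (3 * m) * Lg ^ 5) * ((K + K / 10 : ℕ) : ℝ) ^ 2 ≤
        140000 * (t ^ (3 * m) * Lg ^ 5) * (2 * K) ^ 2 := by gcongr
      _ = 280000 * (K * (Lg ^ 5 * (t ^ (3 * m) * (2 * K)))) := by ring
      _ ≤ _ := by gcongr
  have b4 : (60000 * (Z * Lg ^ 5) + 240000 * (t ^ (5 * m) * Lg ^ 5) *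
      ((K + K / 10 : ℕ) : ℝ) + 140000 * (t ^ (3 * m) * Lg ^ 5) *
      ((K + K / 10 : ℕ) : ℝ) ^ 2) / K ≤ 10 ^ 6 * Lg ^ 5 * Q := by
    rw [div_le_iff₀ (by linarith)]
    have h1 : 0 ≤ (K : ℝ) * (Lg ^ 5 * Q) := by positivity
    calc _ ≤ 180000 * (K * (Lg ^ 5 * Q)) + 480000 * (K * (Lg ^ 5 * Q)) +
          280000 * (K * (Lg ^ 5 * Q)) := by linarith
      _ ≤ 10 ^ 6 * (K * (Lg ^ 5 * Q)) := by linarith
      _ = _ := by ring
  have hcard : t ^ 7 * Lg ^ 5 ≤ KK.card := by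
    have h1 : t ^ 8 ≤ 80 * Lg * KK.card := hK1.trans hKKc
    have h2 : 80 * Lg * (t ^ 7 * Lg ^ 5) ≤ 80 * Lg * KK.card := by
      calc 80 * Lg * (t ^ 7 * Lg ^ 5) = (80 * Lg ^ 6) * t ^ 7 := by ring
        _ ≤ t * t ^ 7 := by
            apply mul_le_mul_of_nonneg_right _ (by positivity)
            have : 0 ≤ Lg ^ 6 := by positivity
            linarith
        _ = t ^ 8 := by ring
        _ ≤ _ := h1
    exact le_of_mul_le_mul_left h2 (by positivity)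
  have c1 : 10 ^ 6 * Lg ^ 5 * Q ≤ KK.card * Q / 10 ^ 6 := by
    rw [le_div_iff₀ (by norm_num)]
    calc 10 ^ 6 * Lg ^ 5 * Q * 10 ^ 6 = (10 ^ 12 * Lg ^ 5) * Q := by ring
      _ ≤ (t ^ 7 * Lg ^ 5) * Q := by
          gcongr
          calc (10 : ℝ) ^ 12 = (10 ^ 6) ^ 2 := by norm_num
            _ ≤ t ^ 2 := by gcongr
            _ ≤ t ^ 7 := pow_le_pow_right₀ ht1 (by norm_num)
      _ ≤ KK.card * Q := by gcongr
  have c2 : 4 * KK.card * Real.log M ≤ KK.card * Q / 10 ^ 6 := by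
    rw [le_div_iff₀ (by norm_num)]
    calc 4 * KK.card * Real.log M * 10 ^ 6 ≤ 4 * KK.card * (2 * Lg) * 10 ^ 6 := by gcongr
      _ = KK.card * (8 * 10 ^ 6 * Lg) := by ring
      _ ≤ KK.card * Q := by
          gcongr
          calc 8 * 10 ^ 6 * Lg ≤ 8 * 10 ^ 6 * Lg ^ 6 := by
                gcongr
                calc Lg = Lg ^ 1 := (pow_one _).symm
                  _ ≤ _ := pow_le_pow_right₀ hLg1 (by norm_num)
            _ ≤ 8 * t := by linarith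
            _ ≤ t * t := by gcongr; linarith
            _ = t ^ 2 := by ring
            _ ≤ t ^ (5 * m + 20) := pow_le_pow_right₀ ht1 (by omega)
            _ ≤ Q := hQl
  have c3 : KK.card * Q / 400 ≤ KK.card * (x / 200 / (2 * K)) := by
    have h1 : (Q : ℝ) / 400 ≤ x / 200 / (2 * K) := by
      rw [div_div, div_le_div_iff₀ (by norm_num) (by positivity)]
      nlinarith
    calc KK.card * (Q : ℝ) / 400 = KK.card * (Q / 400) := by ring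
      _ ≤ _ := by gcongr
  have h0 : 0 ≤ (KK.card : ℝ) * Q := by positivity
  linarith

end Pool.Agent.D0H44.FR
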