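import Mathlib
import Pool.Agent.D0H44.FR.Core

/-! The main estimate, continued. -/

open Finset MeasureTheory

namespace Pool.Agent.D0H44.FR

open Pool.Agent.H398R2.BV Pool.Agent.H410R2
open Pool.Agent.D0H44.EL
open Pool.Agent.D0H44.EM (ps Er)

/-- primes in `(K, 1.1 K]` that do not divide `a` -/
theorem KK_card (hPC : S_PC) : ∃ K₀ : ℕ, 1 ≤ K₀ ∧ ∀ (K a : ℕ) (L : ℝ), K₀ ≤ K → 1 ≤ a →
    1 ≤ L → Real.log (2 * K) ≤ L → Real.log a ≤ L → 160 * L ^ 2 ≤ K →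
    (K : ℝ) ≤ 80 * L *
      ((Ioc K (K + K / 10)).filter (fun k : ℕ => k.Prime ∧ ¬ k ∣ a)).card := by
  obtain ⟨K₀, hK₀, h⟩ := hPC
  refine ⟨K₀, hK₀, fun K a L hK ha hL1 h1 h2 h3 => ?_⟩
  have hp := h K hK
  push_cast at hp
  set P := (Ioc K (K + K / 10)).filter Nat.Prime with hP
  have hc : P.card ≤ ((Ioc K (K + K / 10)).filter (fun k : ℕ => k.Prime ∧ ¬ k ∣ a)).card +
      a.primeFactors.card := by
    rw [← card_filter_add_card_filter_not (s := P) (fun k => ¬ k ∣ a)]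
    apply add_le_add
    · apply card_le_card
      intro k hk
      rw [mem_filter, hP, mem_filter] at hk
      rw [mem_filter]
      exact ⟨hk.1.1, hk.1.2, hk.2⟩
    · apply card_le_card
      intro k hk
      rw [mem_filter, hP, mem_filter, not_not] at hk
      rw [Nat.mem_primeFactors]
      exact ⟨hk.1.2, hk.2, by omega⟩
  set g := ((Ioc K (K + K / 10)).filter (fun k : ℕ => k.Prime ∧ ¬ k ∣ a)).card with hg
  have hc' : (P.card : ℝ) ≤ g + a.primeFactors.card := by exact_mod_cast hc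
  have ho := omega_le_log a ha
  have h4 : (P.card : ℝ) * Real.log (2 * K) ≤ P.card * L := by gcongr
  have h5 : (P.card : ℝ) * L ≤ (g + 2 * L) * L := by
    gcongr
    linarith
  nlinarith

/-- the final arithmetic -/
theorem fin_arith (κ g R K Q L x T V B : ℝ) (hκ0 : 0 ≤ κ) (hg0 : 0 ≤ g) (hR0 : 0 < R)
    (hQ0 : 0 < Q) (hL0 : 0 < L) (hx0 : 0 < x) (hV0 : 0 ≤ V) (hK0 : 0 ≤ K)
    (hT : κ * g * Q / (2000 * R) ≤ T) (hcs : T ^ 2 ≤ V * (B * (144 / x)))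
    (hB : B ≤ 5 * (κ * g * Q / R)) (hκK : K ≤ 80 * L * κ) (hgR : R ≤ 4 * L * g)
    (hKQ : 95 / 100 * x ≤ K * Q) : x ^ 2 ≤ 10 ^ 12 * L ^ 2 * V := by
  obtain ⟨P, hP⟩ : ∃ P : ℝ, P = κ * g * Q / R := ⟨_, rfl⟩
  have hP1 : K * Q ≤ 320 * L ^ 2 * P := by
    have h1 : K * R ≤ (80 * L * κ) * (4 * L * g) := mul_le_mul hκK hgR hR0.le (by positivity)
    have h2 : 320 * L ^ 2 * P = (80 * L * κ) * (4 * L * g) * Q / R := by
      rw [hP]
      ring
    rw [h2, le_div_iff₀ hR0]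
    nlinarith
  have hx1 : 95 / 100 * x ≤ 320 * L ^ 2 * P := hKQ.trans hP1
  have hP0 : 0 < P := by
    have : 0 < 320 * L ^ 2 * P := by linarith
    have h2 : 0 < 320 * L ^ 2 := by positivity
    exact (mul_pos_iff_of_pos_left h2).1 this
  rw [← hP] at hB
  have hT' : P / 2000 ≤ T := by
    refine le_trans (le_of_eq ?_) hT
    rw [hP]
    field_simp
  have h1 : (P / 2000) ^ 2 ≤ V * (5 * P * (144 / x)) := by
    calc (P / 2000) ^ 2 ≤ T ^ 2 := by gcongr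
      _ ≤ V * (B * (144 / x)) := hcs
      _ ≤ _ := by gcongr
  have h2 : P * x ≤ 288 * 10 ^ 7 * V := by
    have h3 : (P / 2000) ^ 2 * x ≤ V * (5 * P * (144 / x)) * x := by gcongr
    have h4 : V * (5 * P * (144 / x)) * x = 720 * P * V := by field_simp; ring
    have h5 : P * (P * x) ≤ P * (288 * 10 ^ 7 * V) := by
      calc P * (P * x) = 4000000 * ((P / 2000) ^ 2 * x) := by ring
        _ ≤ 4000000 * (720 * P * V) := by rw [← h4]; gcongr
        _ = _ := by ring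
    exact le_of_mul_le_mul_left h5 hP0
  calc x ^ 2 = (100 / 95) * ((95 / 100 * x) * x) := by ring
    _ ≤ (100 / 95) * ((320 * L ^ 2 * P) * x) := by gcongr
    _ = (100 / 95) * (320 * L ^ 2 * (P * x)) := by ring
    _ ≤ (100 / 95) * (320 * L ^ 2 * (288 * 10 ^ 7 * V)) := by gcongr
    _ = (100 / 95 * 320 * 288 * 10 ^ 7) * (L ^ 2 * V) := by ring
    _ ≤ 10 ^ 12 * (L ^ 2 * V) := by
        gcongr
        norm_num
    _ = _ := by ring

/-- the bound for the errors: sizes -/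
theorem err_arith (m : ℕ) (t Lg L R Q x ω W2 lM lQ : ℝ) (hm : 40 ≤ m) (hLg1 : 1 ≤ Lg)
    (hLt : 10 ^ 6 * Lg ^ 6 ≤ t) (hL1 : 1 ≤ L) (hLm : L ≤ t ^ (m - 20)) (hR0 : 0 < R)
    (hR2 : R ≤ 2 * (t ^ 8 * L)) (hQ : t ^ (5 * m + 20) ≤ Q) (hx0 : 0 ≤ x) (hxQ : 2 * x ≤ L * Q)
    (hω0 : 0 ≤ ω) (hω : ω ≤ 2 * Lg) (hW0 : 0 ≤ W2) (hW2 : W2 ≤ t ^ 2) (hlM0 : 0 ≤ lM)
    (hlM : lM ≤ 2 * Lg) (hlQ0 : 0 ≤ lQ) (hlQ : lQ ≤ Lg) :
    lM + L * (ω * lM) + x * (W2 * (60 * lQ ^ 2) / Q) ≤ Q / (10000 * R) := by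
  have ht6 : (10 : ℝ) ^ 6 ≤ t := by
    have : (1 : ℝ) ≤ Lg ^ 6 := one_le_pow₀ hLg1
    linarith
  have ht1 : (1 : ℝ) ≤ t := by linarith
  have ht0 : 0 < t := by linarith
  have hQ0 : 0 < Q := lt_of_lt_of_le (by positivity) hQ
  have hLg2 : Lg ^ 2 ≤ Lg ^ 6 := pow_le_pow_right₀ hLg1 (by norm_num)
  have hLg12 : Lg ≤ Lg ^ 2 := by nlinarith
  have hLg60 : 0 ≤ Lg ^ 6 := by positivity
  have ht2 : 1 ≤ t ^ 2 := one_le_pow₀ ht1
  have h1 : lM + L * (ω * lM) + x * (W2 * (60 * lQ ^ 2) / Q) ≤ L * t ^ 3 := by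
    have k1 : lM ≤ 2 * (L * (t ^ 2 * Lg ^ 2)) := by
      calc lM ≤ 2 * Lg := hlM
        _ = 2 * (1 * (1 * Lg)) := by ring
        _ ≤ 2 * (L * (t ^ 2 * Lg ^ 2)) := by gcongr
    have k2 : L * (ω * lM) ≤ 4 * (L * (t ^ 2 * Lg ^ 2)) := by
      calc L * (ω * lM) ≤ L * ((2 * Lg) * (2 * Lg)) := by gcongr
        _ = 4 * (L * (1 * Lg ^ 2)) := by ring
        _ ≤ 4 * (L * (t ^ 2 * Lg ^ 2)) := by gcongr
    have k3 : x * (W2 * (60 * lQ ^ 2) / Q) ≤ 30 * (L * (t ^ 2 * Lg ^ 2)) := by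
      rw [← mul_div_assoc, div_le_iff₀ hQ0]
      calc x * (W2 * (60 * lQ ^ 2)) ≤ (L * Q / 2) * (t ^ 2 * (60 * Lg ^ 2)) := by
            gcongr
            linarith
        _ = _ := by ring
    calc _ ≤ 36 * (L * (t ^ 2 * Lg ^ 2)) := by linarith
      _ = L * (t ^ 2 * (36 * Lg ^ 2)) := by ring
      _ ≤ L * (t ^ 2 * t) := by
          gcongr
          linarith
      _ = L * t ^ 3 := by ring
  refine h1.trans ?_
  rw [le_div_iff₀ (by positivity)]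
  calc L * t ^ 3 * (10000 * R) ≤ t ^ (m - 20) * t ^ 3 * (10000 * (2 * (t ^ 8 * t ^ (m - 20)))) := by
        gcongr
        refine hR2.trans ?_
        gcongr
    _ = 20000 * (t ^ (m - 20) * t ^ 3 * t ^ 8 * t ^ (m - 20)) := by ring
    _ ≤ t * (t ^ (m - 20) * t ^ 3 * t ^ 8 * t ^ (m - 20)) := by
        gcongr
        linarith
    _ = t ^ (m - 20 + 3 + 8 + (m - 20) + 1) := by
        rw [← pow_add, ← pow_add, ← pow_add, ← pow_succ']
    _ ≤ t ^ (5 * m + 20) := pow_le_pow_right₀ ht1 (by omega)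
    _ ≤ Q := hQ

/-- the bound for the norm: sizes -/
theorem nrm_arith (m : ℕ) (t L R Q κ g : ℝ) (hm : 40 ≤ m) (ht6 : 10 ^ 6 ≤ t)
    (hL1 : 1 ≤ L) (hLm : L ≤ t ^ (m - 20)) (hR0 : 0 < R)
    (hR2 : R ≤ 2 * (t ^ 8 * L)) (hQ : t ^ (5 * m + 20) ≤ Q) (hκ0 : 0 ≤ κ) (hκ : κ ≤ L)
    (hg0 : 0 ≤ g) (hg : g ≤ R) :
    κ * g * (2 * (Q / R + 1)) + 4 * (κ * g) ^ 2 ≤ 5 * (κ * g * Q / R) := by
  have ht1 : (1 : ℝ) ≤ t := by linarith
  have ht0 : 0 < t := by linarith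
  have hQ0 : 0 < Q := lt_of_lt_of_le (by positivity) hQ
  have hLt1 : 1 ≤ t ^ (m - 20) := one_le_pow₀ ht1
  have h1 : L * R * (4 * R) ≤ Q := by
    have hRb : R ≤ 2 * (t ^ 8 * t ^ (m - 20)) := by
      refine hR2.trans ?_
      gcongr
    calc L * R * (4 * R) ≤ t ^ (m - 20) * (2 * (t ^ 8 * t ^ (m - 20))) *
          (4 * (2 * (t ^ 8 * t ^ (m - 20)))) := by gcongr
      _ = 16 * (t ^ (m - 20) * t ^ 8 * t ^ (m - 20) * t ^ 8 * t ^ (m - 20)) := by ring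
      _ ≤ t * (t ^ (m - 20) * t ^ 8 * t ^ (m - 20) * t ^ 8 * t ^ (m - 20)) := by
          gcongr
          linarith
      _ = t ^ (m - 20 + 8 + (m - 20) + 8 + (m - 20) + 1) := by
          rw [← pow_add, ← pow_add, ← pow_add, ← pow_add, ← pow_succ']
      _ ≤ t ^ (5 * m + 20) := pow_le_pow_right₀ ht1 (by omega)
      _ ≤ Q := hQ
  have h2 : 4 * (κ * g) ≤ Q / R := by
    rw [le_div_iff₀ hR0]
    calc 4 * (κ * g) * R ≤ 4 * (L * R) * R := by gcongr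
      _ = L * R * (4 * R) := by ring
      _ ≤ Q := h1
  have h3 : 1 ≤ Q / R := by
    rw [le_div_iff₀ hR0, one_mul]
    have hR1 : R ≤ 2 * (t ^ 8 * t ^ (m - 20)) := by
      refine hR2.trans ?_
      gcongr
    calc R ≤ 2 * (t ^ 8 * t ^ (m - 20)) := hR1
      _ ≤ t * (t ^ 8 * t ^ (m - 20)) := by
          gcongr
          linarith
      _ = t ^ (8 + (m - 20) + 1) := by rw [← pow_add, ← pow_succ']
      _ ≤ t ^ (5 * m + 20) := pow_le_pow_right₀ ht1 (by omega)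
      _ ≤ Q := hQ
  have h0 : 0 ≤ κ * g := by positivity
  calc κ * g * (2 * (Q / R + 1)) + 4 * (κ * g) ^ 2 =
      κ * g * (2 * (Q / R + 1)) + (κ * g) * (4 * (κ * g)) := by ring
    _ ≤ κ * g * (2 * (Q / R + Q / R)) + (κ * g) * (Q / R) := by gcongr
    _ = 5 * (κ * g * Q / R) := by ring


/-- the parameters -/
theorem params (m Q a K₀ R₀ : ℕ) (X₀ t Lg x : ℝ) (hm : 40 ≤ m)
    (hZ : 2 * x = t ^ (6 * m)) (hLg : Lg = 1 + Real.log (2 * x)) (hLt : 10 ^ 6 * Lg ^ 6 ≤ t)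
    (hCK : (K₀ : ℝ) ≤ t) (hCR : (R₀ : ℝ) ≤ t) (hCX : X₀ ≤ t) (ht1 : 1 ≤ t) (hQ1 : 1 ≤ Q)
    (htQ : t ^ 10 * Q ≤ x) (hxQ : x ≤ Q * t ^ (m - 21)) (ha : 1 ≤ a) (hax : (a : ℝ) ≤ x / 100) :
    1 ≤ Lg ∧ 10 ^ 6 ≤ t ∧ 1 ≤ x ∧ X₀ ≤ x ∧ 2 * (Q : ℝ) ≤ 2 * x ∧ 160 * Lg ^ 2 ≤ t ∧
    1 + Real.log a ≤ Lg ∧ ∃ L K R M : ℕ,
    (2 * x ≤ (L : ℝ) * Q ∧ 1 ≤ L ∧ (L : ℝ) ≤ t ^ (m - 20)) ∧
    (95 / 100 * x ≤ (K : ℝ) * Q ∧ (K : ℝ) * Q ≤ 96 / 100 * x ∧ 2 * K ≤ L ∧ t ^ 8 ≤ K ∧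
      t ≤ K ∧ K₀ ≤ K ∧ Real.log (2 * K) ≤ Lg) ∧
    (t ^ 8 * L ≤ R ∧ (R : ℝ) ≤ 2 * (t ^ 8 * L) ∧ 2 * L < R ∧ t ≤ R ∧ R₀ ≤ R ∧
      1 + Real.log (2 * R) ≤ Lg) ∧
    (2 * x ≤ M ∧ Real.log M ≤ 2 * Lg ∧ 0 ≤ Real.log M ∧ 2 * R ≤ M) := by
  have h2x1 : 1 ≤ 2 * x := by rw [hZ]; exact one_le_pow₀ ht1
  have hLg1 : 1 ≤ Lg := by
    have := Real.log_nonneg h2x1
    linarith
  have ht6 : (10 : ℝ) ^ 6 ≤ t := by
    have : (1 : ℝ) ≤ Lg ^ 6 := one_le_pow₀ hLg1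
    linarith
  have hQ0 : (1 : ℝ) ≤ Q := by exact_mod_cast hQ1
  have ht9 : 10 ^ 6 * t ≤ t ^ 10 := by
    calc 10 ^ 6 * t ≤ t * t := by gcongr
      _ = t ^ 2 := by ring
      _ ≤ t ^ 10 := pow_le_pow_right₀ ht1 (by norm_num)
  have htx : t ^ 10 ≤ x := by
    calc t ^ 10 = t ^ 10 * 1 := (mul_one _).symm
      _ ≤ t ^ 10 * Q := by gcongr
      _ ≤ x := htQ
  have hxt : 10 ^ 6 * t ≤ x := ht9.trans htx
  have hx1 : 1 ≤ x := by linarith
  have hx0 : 0 < x := by linarith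
  have hQx : 10 ^ 6 * (Q : ℝ) ≤ x := by
    refine le_trans ?_ htQ
    gcongr
    linarith
  -- the parameters
  obtain ⟨L, hLd⟩ : ∃ L : ℕ, L = ⌈2 * x / Q⌉₊ := ⟨_, rfl⟩
  have hxQ0 : 0 < 2 * x / Q := by positivity
  have hL1 : 2 * x / Q ≤ L := by rw [hLd]; exact Nat.le_ceil _
  have hL2 : (L : ℝ) < 2 * x / Q + 1 := by rw [hLd]; exact Nat.ceil_lt_add_one hxQ0.le
  have hLQ : 2 * x ≤ (L : ℝ) * Q := by rwa [div_le_iff₀ (by linarith)] at hL1
  have hLt10 : 2 * t ^ 10 ≤ L := by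
    refine le_trans ?_ hL1
    rw [le_div_iff₀ (by linarith)]
    linarith
  have hLr : (1 : ℝ) ≤ L := by
    have : (1 : ℝ) ≤ t ^ 10 := one_le_pow₀ ht1
    linarith
  have hL3 : 1 ≤ L := by exact_mod_cast hLr
  have hLm : (L : ℝ) ≤ t ^ (m - 20) := by
    have h1 : 2 * x / Q ≤ 2 * t ^ (m - 21) := by
      rw [div_le_iff₀ (by linarith)]
      calc 2 * x ≤ 2 * (Q * t ^ (m - 21)) := by gcongr
        _ = _ := by ring
    have h2 : 1 ≤ t ^ (m - 21) := one_le_pow₀ ht1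
    calc (L : ℝ) ≤ 3 * t ^ (m - 21) := by linarith
      _ ≤ t * t ^ (m - 21) := by
          gcongr
          linarith
      _ = t ^ (m - 20) := by
          rw [← pow_succ']
          congr 1
          omega
  obtain ⟨K, hKd⟩ : ∃ K : ℕ, K = ⌈95 / 100 * x / Q⌉₊ := ⟨_, rfl⟩
  have hK1 : 95 / 100 * x / Q ≤ K := by rw [hKd]; exact Nat.le_ceil _
  have hK2 : (K : ℝ) < 95 / 100 * x / Q + 1 := by
    rw [hKd]; exact Nat.ceil_lt_add_one (by positivity)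
  have hKQ1 : 95 / 100 * x ≤ (K : ℝ) * Q := by rwa [div_le_iff₀ (by linarith)] at hK1
  have hKQ2 : (K : ℝ) * Q ≤ 96 / 100 * x := by
    calc (K : ℝ) * Q ≤ (95 / 100 * x / Q + 1) * Q := by gcongr
      _ = 95 / 100 * x + Q := by field_simp
      _ ≤ _ := by linarith
  have hKL' : 2 * (K : ℝ) ≤ L := by
    have h1 : (2 * (K : ℝ)) * Q ≤ L * Q := by linarith
    exact le_of_mul_le_mul_right h1 (by linarith)
  have hKL : 2 * K ≤ L := by exact_mod_cast hKL'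
  have hKt9 : t ^ 9 ≤ K := by
    refine le_trans ?_ hK1
    rw [le_div_iff₀ (by linarith)]
    have h1 : 2 * t ^ 9 ≤ t ^ 10 := by
      calc 2 * t ^ 9 ≤ t * t ^ 9 := by
            gcongr
            linarith
        _ = t ^ 10 := by ring
    have h2 : 2 * t ^ 9 * Q ≤ t ^ 10 * Q := by gcongr
    linarith
  have hKt8 : t ^ 8 ≤ K := (pow_le_pow_right₀ ht1 (by norm_num)).trans hKt9
  have hKt : t ≤ K := by
    refine le_trans ?_ hKt9
    calc t = t ^ 1 := (pow_one t).symm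
      _ ≤ _ := pow_le_pow_right₀ ht1 (by norm_num)
  obtain ⟨R, hRd⟩ : ∃ R : ℕ, R = ⌈t ^ 8 * L⌉₊ := ⟨_, rfl⟩
  have hR1 : t ^ 8 * L ≤ R := by rw [hRd]; exact Nat.le_ceil _
  have htL : 1 ≤ t ^ 8 * (L : ℝ) := by
    have : 1 ≤ t ^ 8 := one_le_pow₀ ht1
    nlinarith
  have hR2 : (R : ℝ) ≤ 2 * (t ^ 8 * L) := by
    have : (R : ℝ) < t ^ 8 * L + 1 := by rw [hRd]; exact Nat.ceil_lt_add_one (by linarith)
    linarith
  have hR0 : (0 : ℝ) < R := by linarith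
  have h2LR : 2 * L < R := by
    have h1 : (2 : ℝ) * L < R := by
      refine lt_of_lt_of_le ?_ hR1
      gcongr
      calc (2 : ℝ) < t := by linarith
        _ = t ^ 1 := (pow_one t).symm
        _ ≤ t ^ 8 := pow_le_pow_right₀ ht1 (by norm_num)
    exact_mod_cast h1
  have htR : t ≤ R := by
    refine le_trans ?_ hR1
    calc t = t ^ 1 * 1 := by ring
      _ ≤ t ^ 8 * L := by
          gcongr
          norm_num
  have hRR₀ : R₀ ≤ R := by
    have : (R₀ : ℝ) ≤ R := hCR.trans htR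
    exact_mod_cast this
  have hKK₀ : K₀ ≤ K := by
    have : (K₀ : ℝ) ≤ K := hCK.trans hKt
    exact_mod_cast this
  obtain ⟨M, hMd⟩ : ∃ M : ℕ, M = ⌈2 * x⌉₊ := ⟨_, rfl⟩
  have hM : 2 * x ≤ M := by rw [hMd]; exact Nat.le_ceil _
  have hM2 : (M : ℝ) ≤ 2 * x + 1 := by
    rw [hMd]; exact (Nat.ceil_lt_add_one (by linarith)).le
  have hM1 : (1 : ℝ) ≤ M := by linarith
  have hlogM : Real.log M ≤ 2 * Lg := by
    have h1 : Real.log M ≤ Real.log (2 * x * (2 * x)) := by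
      apply Real.log_le_log (by linarith)
      nlinarith
    rw [Real.log_mul (by linarith) (by linarith)] at h1
    linarith
  have hlogM0 : 0 ≤ Real.log M := Real.log_nonneg hM1
  have hloga : Real.log a ≤ Lg := by
    have ha0 : (1 : ℝ) ≤ a := by exact_mod_cast ha
    have := Real.log_le_log (by linarith) (show (a : ℝ) ≤ 2 * x by linarith)
    linarith
  have hloga1 : 1 + Real.log a ≤ Lg := by
    have ha0 : (1 : ℝ) ≤ a := by exact_mod_cast ha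
    have := Real.log_le_log (by linarith) (show (a : ℝ) ≤ 2 * x by linarith)
    linarith
  have h2Rx : 2 * (R : ℝ) ≤ 2 * x := by
    rw [hZ]
    calc 2 * (R : ℝ) ≤ 2 * (2 * (t ^ 8 * t ^ (m - 20))) := by
          gcongr
          refine hR2.trans ?_
          gcongr
      _ = 4 * (t ^ 8 * t ^ (m - 20)) := by ring
      _ ≤ t * (t ^ 8 * t ^ (m - 20)) := by
          gcongr
          linarith
      _ = t ^ (8 + (m - 20) + 1) := by rw [← pow_add, ← pow_succ']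
      _ ≤ _ := pow_le_pow_right₀ ht1 (by omega)
  have hlog2R : 1 + Real.log (2 * R) ≤ Lg := by
    have := Real.log_le_log (by linarith) h2Rx
    linarith
  have hlog2K : Real.log (2 * K) ≤ Lg := by
    have h1 : 2 * (K : ℝ) ≤ 2 * R := by
      have : K ≤ R := by omega
      have : (K : ℝ) ≤ R := by exact_mod_cast this
      linarith
    have := Real.log_le_log (by linarith) (h1.trans h2Rx)
    linarith
  have h2RM : 2 * R ≤ M := by
    have : 2 * (R : ℝ) ≤ M := h2Rx.trans hM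
    exact_mod_cast this
  have hLgsq : 160 * Lg ^ 2 ≤ t := by
    have : Lg ^ 2 ≤ Lg ^ 6 := pow_le_pow_right₀ hLg1 (by norm_num)
    have : 0 ≤ Lg ^ 6 := by positivity
    linarith
  exact ⟨hLg1, ht6, hx1, by linarith, by linarith, hLgsq, hloga1, L, K, R, M,
    ⟨hLQ, hL3, hLm⟩, ⟨hKQ1, hKQ2, hKL, hKt8, hKt, hKK₀, hlog2K⟩,
    ⟨hR1, hR2, h2LR, htR, hRR₀, hlog2R⟩, ⟨hM, hlogM, hlogM0, h2RM⟩⟩

/-- **the main estimate** -/
theorem core (hW : S_W) (hOM : S_OM) (hPS : S_PS) (hIS : S_IS) (hCH : S_CH) (hSM : S_SM)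
    (hNF : S_NF) (hAV : S_AV) (hRG : S_RG) (hCL : S_CL) (hPC : S_PC) (hMN : S_MN) (hIB : S_IB)
    (hCS : S_CS) (hNC : S_NC) : ∃ C : ℝ, 1 ≤ C ∧ ∀ (m Q a : ℕ) (t Lg x : ℝ), 40 ≤ m →
    2 * x = t ^ (6 * m) → Lg = 1 + Real.log (2 * x) → 10 ^ 6 * Lg ^ 6 ≤ t → C ≤ t → 1 ≤ Q →
    t ^ 10 * Q ≤ x → x ≤ Q * t ^ (m - 21) → 1 ≤ a → (a : ℝ) ≤ x / 100 →
    2 ^ a.primeFactors.card ≤ t ^ 2 →
    x ^ 2 ≤ 10 ^ 12 * Lg ^ 2 * ∑ q ∈ (Ioc Q (2 * Q)).filter (fun q => q.Coprime a),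
      ∫ u in x..(2 * x), Er q a u ^ 2 := by
  obtain ⟨K₀, hK₀, hKc⟩ := KK_card hPC
  obtain ⟨R₀, hR₀, hcnt⟩ := EM.cnt
  obtain ⟨X₀, hX₀, hMN'⟩ := hMN
  refine ⟨max 1 (max K₀ (max R₀ X₀)), le_max_left _ _, ?_⟩
  intro m Q a t Lg x hm hZ hLg hLt hC hQ1 htQ hxQ ha hax hω
  have hCK : (K₀ : ℝ) ≤ t := ((le_max_left _ _).trans (le_max_right _ _)).trans hC
  have hCR : (R₀ : ℝ) ≤ t :=
    (((le_max_left _ _).trans (le_max_right _ _)).trans (le_max_right _ _)).trans hC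
  have hCX : X₀ ≤ t :=
    (((le_max_right _ _).trans (le_max_right _ _)).trans (le_max_right _ _)).trans hC
  have ht1 : (1 : ℝ) ≤ t := (le_max_left _ _).trans hC
  have ht0 : 0 < t := by linarith
  obtain ⟨hLg1, ht6, hx1, hXx, hQx, hLgsq, hloga1, L, K, R, M, ⟨hLQ, hL3, hLm⟩,
    ⟨hKQ1, hKQ2, hKL, hKt8, hKt, hKK₀, hlog2K⟩, ⟨hR1, hR2, h2LR, htR, hRR₀, hlog2R⟩,
    ⟨hM, hlogM, hlogM0, h2RM⟩⟩ :=
    params m Q a K₀ R₀ X₀ t Lg x hm hZ hLg hLt hCK hCR hCX ht1 hQ1 htQ hxQ ha hax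
  clear hCK hCR hCX hC
  have ht0 : 0 < t := by linarith
  have hx0 : 0 < x := by linarith
  have hQ0 : (1 : ℝ) ≤ Q := by exact_mod_cast hQ1
  have hLr : (1 : ℝ) ≤ L := by exact_mod_cast hL3
  have hR0 : (0 : ℝ) < R := by linarith
  have hloga : Real.log a ≤ Lg := by linarith
  -- the sets
  set G := (Ioc R (2 * R)).filter (fun r : ℕ => r.Prime ∧ ¬ r ∣ a) with hG
  set KK := (Ioc K (K + K / 10)).filter (fun k : ℕ => k.Prime ∧ ¬ k ∣ a) with hKK
  have hGm : ∀ r ∈ G, r.Prime ∧ R < r ∧ r ≤ 2 * R := by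
    intro r hr
    rw [hG, mem_filter, mem_Ioc] at hr
    exact ⟨hr.2.1, hr.1.1, hr.1.2⟩
  have hGa : ∀ r ∈ G, ¬ r ∣ a := by
    intro r hr
    rw [hG, mem_filter] at hr
    exact hr.2.2
  have hGc : (G.card : ℝ) ≤ R := by
    have h1 : G.card ≤ (Ioc R (2 * R)).card := card_le_card (filter_subset _ _)
    rw [Nat.card_Ioc] at h1
    have : G.card ≤ R := by omega
    exact_mod_cast this
  have hKm : ∀ k ∈ KK, k.Prime ∧ K < k ∧ k ≤ K + K / 10 ∧ ¬ k ∣ a := by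
    intro k hk
    rw [hKK, mem_filter, mem_Ioc] at hk
    exact ⟨hk.2.1, hk.1.1, hk.1.2, hk.2.2⟩
  have hKc2 : (KK.card : ℝ) ≤ L := by
    have h1 : KK.card ≤ (Ioc K (K + K / 10)).card := card_le_card (filter_subset _ _)
    rw [Nat.card_Ioc] at h1
    have : KK.card ≤ L := by omega
    exact_mod_cast this
  have hgR := hcnt R a Lg hRR₀ ha hlog2R hloga1 (by
    have : (0:ℝ) ≤ Lg ^ 2 := by positivity
    linarith)
  rw [← hG, div_le_iff₀ (by positivity)] at hgR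
  have hgR' : (R : ℝ) ≤ 4 * Lg * G.card := by linarith
  have hκK := hKc K a Lg hKK₀ ha hLg1 hlog2K hloga (by linarith)
  rw [← hKK] at hκK
  have hV : ∀ k ∈ KK, x / 200 ≤
      ∑ n ∈ Icc 1 M, ArithmeticFunction.vonMangoldt n * om x Q a k n := by
    intro k hk
    obtain ⟨_, g2, g3, _⟩ := hKm k hk
    apply hMN' x Q a M k (by linarith) hM hax
    · refine hKQ1.trans ?_
      gcongr
    · have h1 : (k : ℝ) ≤ 11 / 10 * K := by
        have : 10 * k ≤ 11 * K := by omega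
        have : 10 * (k : ℝ) ≤ 11 * K := by exact_mod_cast this
        linarith
      calc (k : ℝ) * Q ≤ (11 / 10 * K) * Q := by gcongr
        _ = 11 / 10 * (K * Q) := by ring
        _ ≤ _ := by linarith
  have hMMs := MM_main hIS hOM hPS hCH m L M K Q a KK t Lg (2 * x) x hm rfl hZ hLg1 hLg hLt hx1
    hQ1 (by linarith) hM hlogM hLm hLQ hKL hKt8 hKQ1 hKQ2 hKm hκK hV
  have hDl := Dl_sum hIS hSM m L R M G t Lg (2 * x) Q hm hZ hLg1 hLg hLt hL3 hLm hR1 hR2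
    (by omega) hLQ (by linarith) hGm hGc hlogM
  -- the lower bound
  have hkp : ∀ k ∈ KK, 1 ≤ k ∧ k ≤ L ∧ L < k + L ∧ k + L < R := by
    intro k hk
    obtain ⟨_, g2, g3, _⟩ := hKm k hk
    refine ⟨by omega, by omega, by omega, by omega⟩
  have hT := T_lower hW hAV hRG hCL hIB hNC x Q a M L R G KK (fun k => k + L) hx1 hQ1 ha
    (by linarith) hM hLQ (by omega) hGm hGa h2RM hkp
  set T := ∑ q ∈ (Ioc Q (2 * Q)).filter (fun q => q.Coprime a),
    cc G KK (fun k => k + L) a Q q * ∫ u in x..(2 * x), Er q a u * (w1 (u / x) / x) with hTd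
  set V := ∑ q ∈ (Ioc Q (2 * Q)).filter (fun q => q.Coprime a),
      ∫ u in x..(2 * x), Er q a u ^ 2 with hVd
  have hcs := hCS x a ((Ioc Q (2 * Q)).filter (fun q => q.Coprime a))
    (cc G KK (fun k => k + L) a Q) hx1 (by
      intro q hq
      rw [mem_filter, mem_Ioc] at hq
      omega)
  rw [← hTd, ← hVd] at hcs
  have hV0 : 0 ≤ V := by
    rw [hVd]
    apply sum_nonneg
    intro q _
    apply intervalIntegral.integral_nonneg (by linarith)
    intro u _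
    positivity
  have hQl := Q_low m L t (2 * x) Q hm ht1 hZ hLm hLQ (by linarith)
  have hκ0 : (0 : ℝ) ≤ KK.card := Nat.cast_nonneg _
  have hg0 : (0 : ℝ) ≤ G.card := Nat.cast_nonneg _
  have hlQ : 1 + Real.log ((2 * Q : ℕ) : ℝ) ≤ Lg := by
    push_cast
    have := Real.log_le_log (by linarith) (show 2 * (Q : ℝ) ≤ 2 * x by linarith)
    linarith
  have hlQ0 : 0 ≤ 1 + Real.log ((2 * Q : ℕ) : ℝ) := by
    have := Real.log_natCast_nonneg (2 * Q)
    linarith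
  have hωc : (a.primeFactors.card : ℝ) ≤ 2 * Lg := by
    have := omega_le_log a ha
    linarith
  have herr := err_arith m t Lg L R Q x a.primeFactors.card (2 ^ a.primeFactors.card)
    (Real.log M) (1 + Real.log ((2 * Q : ℕ) : ℝ)) hm hLg1 hLt hLr hLm hR0 hR2 hQl hx0.le hLQ
    (Nat.cast_nonneg _) hωc (by positivity) hω hlogM0 hlogM hlQ0 hlQ
  have hmain : KK.card * G.card * Q / (1000 * R) ≤
      ∑ k ∈ KK, ∑ r ∈ G, 1 / ((r : ℝ) - 1) * MM x Q a M k := by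
    have h1 : ∀ k ∈ KK, G.card * (1 / (2 * R)) * MM x Q a M k ≤
        ∑ r ∈ G, 1 / ((r : ℝ) - 1) * MM x Q a M k := by
      intro k _
      rw [← sum_mul]
      apply mul_le_mul_of_nonneg_right _ (MM_nonneg hW x Q a M k)
      rw [← nsmul_eq_mul, ← sum_const]
      apply sum_le_sum
      intro r hr
      obtain ⟨f1, f2, f3⟩ := hGm r hr
      have f3' : (r : ℝ) ≤ 2 * R := by exact_mod_cast f3
      have f1' : (1 : ℝ) < r := by exact_mod_cast f1.one_lt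
      apply one_div_le_one_div_of_le (by linarith) (by linarith)
    refine le_trans ?_ (sum_le_sum h1)
    rw [← mul_sum]
    calc KK.card * G.card * (Q : ℝ) / (1000 * R) =
        G.card * (1 / (2 * R)) * (KK.card * Q / 500) := by
          rw [div_eq_iff (by positivity)]
          field_simp
          ring
      _ ≤ _ := by gcongr
  have hE1 : 2 * (KK.card : ℝ) * ∑ l ∈ Icc 1 L, ∑ r ∈ G, Dl (2 * x) M l r ≤
      KK.card * G.card * Q / (10000 * R) := by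
    calc 2 * (KK.card : ℝ) * ∑ l ∈ Icc 1 L, ∑ r ∈ G, Dl (2 * x) M l r ≤
        2 * KK.card * (Q / t ^ 4) := by gcongr
      _ ≤ KK.card * G.card * Q / (10000 * R) := by
          rw [le_div_iff₀ (by positivity)]
          have h1 : 20000 * (R : ℝ) ≤ G.card * t ^ 4 := by
            calc 20000 * (R : ℝ) ≤ 20000 * (4 * Lg * G.card) := by gcongr
              _ = G.card * (80000 * Lg) := by ring
              _ ≤ G.card * t ^ 4 := by
                  gcongr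
                  have k1 : Lg ≤ Lg ^ 6 := by
                    calc Lg = Lg ^ 1 := (pow_one _).symm
                      _ ≤ _ := pow_le_pow_right₀ hLg1 (by norm_num)
                  calc 80000 * Lg ≤ t := by linarith
                    _ = t ^ 1 := (pow_one t).symm
                    _ ≤ t ^ 4 := pow_le_pow_right₀ ht1 (by norm_num)
          calc 2 * KK.card * (Q / t ^ 4) * (10000 * R) =
              KK.card * (Q / t ^ 4) * (20000 * R) := by ring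
            _ ≤ KK.card * (Q / t ^ 4) * (G.card * t ^ 4) := by gcongr
            _ = _ := by field_simp
  have hE2 : (KK.card : ℝ) * G.card * (Real.log M + L * (a.primeFactors.card * Real.log M) +
        x * (2 ^ a.primeFactors.card * (60 * (1 + Real.log ((2 * Q : ℕ) : ℝ)) ^ 2) / Q)) ≤
      KK.card * G.card * Q / (10000 * R) := by
    calc _ ≤ (KK.card : ℝ) * G.card * (Q / (10000 * R)) := by gcongr
      _ = _ := by ring
  have hT2 : KK.card * G.card * Q / (2000 * R) ≤ T := by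
    refine le_trans ?_ hT
    have e1 : (KK.card : ℝ) * G.card * Q / (2000 * R) =
        5 * (KK.card * G.card * Q / (10000 * R)) := by
      rw [← mul_div_assoc, div_eq_div_iff (by positivity) (by positivity)]
      ring
    have e2 : (KK.card : ℝ) * G.card * Q / (1000 * R) =
        10 * (KK.card * G.card * Q / (10000 * R)) := by
      rw [← mul_div_assoc, div_eq_div_iff (by positivity) (by positivity)]
      ring
    have h0 : 0 ≤ (KK.card : ℝ) * G.card * Q / (10000 * R) := by positivity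
    rw [e1]
    rw [e2] at hmain
    linarith
  -- the norm
  have hcc : ∑ q ∈ (Ioc Q (2 * Q)).filter (fun q => q.Coprime a),
      cc G KK (fun k => k + L) a Q q ^ 2 ≤ 5 * (KK.card * G.card * Q / R) := by
    calc ∑ q ∈ (Ioc Q (2 * Q)).filter (fun q => q.Coprime a),
        cc G KK (fun k => k + L) a Q q ^ 2 ≤
        ∑ q ∈ Ioc Q (2 * Q), FF G KK (fun k => k + L) a q ^ 2 := by
          refine le_trans ?_ (sum_le_sum_of_subset_of_nonneg
            (filter_subset (fun q => q.Coprime a) (Ioc Q (2 * Q)))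
            (fun q _ _ => sq_nonneg _))
          apply sum_le_sum
          intro q _
          unfold cc
          rw [mul_pow]
          obtain ⟨g1, g2⟩ := hW.2.2.2.1 ((q : ℝ) / Q)
          calc w ((q : ℝ) / Q) ^ 2 * FF G KK (fun k => k + L) a q ^ 2 ≤
              1 ^ 2 * FF G KK (fun k => k + L) a q ^ 2 := by gcongr
            _ = _ := by ring
      _ ≤ KK.card * G.card * (2 * ((Q : ℝ) / R + 1)) + 4 * ((KK.card : ℝ) * G.card) ^ 2 := by
          apply hNF Q a R G KK (fun k => k + L) hQ1 (by omega) hGm hGa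
          · intro k hk
            obtain ⟨f1, f2, f3, f4⟩ := hkp k hk
            exact ⟨f1, by omega, by omega, f4⟩
          · intro k _ k2 _ h
            simpa using h
          · intro k hk k2 hk2 h
            obtain ⟨f1, f2, f3, f4⟩ := hkp k hk
            obtain ⟨g1, g2, g3, g4⟩ := hkp k2 hk2
            have h' : k = k2 + L := h
            omega
      _ ≤ _ := nrm_arith m t L R Q KK.card G.card hm ht6 hLr hLm hR0 hR2 hQl hκ0 hKc2 hg0 hGc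
  exact fin_arith KK.card G.card R K Q Lg x T V _ hκ0 hg0 hR0 (by linarith) (by linarith) hx0
    hV0 (by linarith) hT2 hcs hcc hκK hgR' hKQ1

end Pool.Agent.D0H44.FR
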