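import Mathlib
import Pool.Agent.D0H44.FR.Fin
import Pool.Agent.D0H12.FR.AV
import Pool.Agent.D0H12.FR.NF
import Pool.Agent.D0H51.FR.CH
import Pool.Agent.D0H51.FR.IB
import Pool.Agent.D0H51.FR.MN
import Pool.Agent.D0H51.FR.PC
import Pool.Agent.D0H51.FR.PS
import Pool.Agent.D0H81.FR.CL
import Pool.Agent.D0H81.FR.NC
import Pool.Agent.D0H81.FR.RG
import Pool.Agent.D0H81.FR.SM
import Pool.Agent.D0H81.FR.WT

/-! The variance over the moduli for a fixed residue. -/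

open Finset MeasureTheory Filter

namespace Pool.Agent.D0H44.FR

open Pool.Agent.D0H44.EM (ps Er)

/-- the variance for a fixed residue class -/
theorem variance (ε : ℝ) (hε : 0 < ε) : ∃ x₀ : ℝ, 3 ≤ x₀ ∧ ∀ x : ℝ, x₀ ≤ x →
    ∀ Q : ℕ, x ^ (5 / 6 + ε) ≤ Q → (Q : ℝ) ≤ x ^ (1 - ε) → ∀ a : ℕ, 1 ≤ a → (a : ℝ) ≤ x / 100 →
    x ^ 2 ≤ 10 ^ 13 * Real.log x ^ 2 * ∑ q ∈ (Ioc Q (2 * Q)).filter (fun q => q.Coprime a),
      ∫ u in x..(2 * x), Er q a u ^ 2 := by
  have hW := Pool.Agent.D0H81.FR.t_W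
  have hOM := Pool.Agent.D0H81.FR.t_OM
  have hPS := Pool.Agent.D0H51.FR.t_PS
  have hCH := Pool.Agent.D0H51.FR.CH.t_CH
  obtain ⟨C, hC1, hcore⟩ := core hW hOM hPS Pool.Agent.D0H51.FR.t_IS hCH
    Pool.Agent.D0H81.FR.t_SM Pool.Agent.D0H12.FR.t_NF (Pool.Agent.D0H12.FR.t_AV hW)
    (Pool.Agent.D0H81.FR.t_RG hW) (Pool.Agent.D0H81.FR.t_CL hW hOM hPS hCH)
    Pool.Agent.D0H51.FR.t_PC (Pool.Agent.D0H51.FR.t_MN hW) (Pool.Agent.D0H51.FR.t_IB hW)
    (Pool.Agent.D0H51.FR.t_CS hW) (Pool.Agent.D0H81.FR.t_NC hW)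
  obtain ⟨n, hn⟩ := exists_nat_gt (10 / ε)
  obtain ⟨m, hmd⟩ : ∃ m : ℕ, m = 40 + n := ⟨_, rfl⟩
  have hm : 40 ≤ m := by omega
  obtain ⟨N, hN⟩ : ∃ N : ℕ, N = 6 * m := ⟨_, rfl⟩
  have hN0 : N ≠ 0 := by omega
  have hNr : (0 : ℝ) < N := by positivity
  have hNε : 60 ≤ ε * N := by
    have h1 : 6 * (n : ℝ) ≤ N := by
      have : 6 * n ≤ N := by omega
      exact_mod_cast this
    rw [div_lt_iff₀ hε] at hn
    nlinarith
  obtain ⟨C', hC'0, hC'⟩ := Pool.Agent.H398R2.BV.pow_omega_le 2 (by norm_num) ((N : ℝ)⁻¹)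
    (by positivity)
  have ht1 : Tendsto (fun X : ℝ => X ^ ((N : ℝ)⁻¹)) atTop atTop :=
    tendsto_rpow_atTop (by positivity)
  have ht2 : ∀ᶠ X : ℝ in atTop, 10 ^ 6 * (1 + Real.log X) ^ 6 ≤ X ^ ((N : ℝ)⁻¹) := by
    have h := (isLittleO_log_rpow_atTop (by positivity : (0 : ℝ) < (N : ℝ)⁻¹ / 6)).bound
      (by norm_num : (0 : ℝ) < 1 / 20)
    filter_upwards [h, eventually_ge_atTop (Real.exp 1)] with X hX hX1
    have hX0 : 0 < X := (Real.exp_pos 1).trans_le hX1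
    have hl : 1 ≤ Real.log X := by rwa [Real.le_log_iff_exp_le hX0]
    rw [Real.norm_of_nonneg (by linarith), Real.norm_of_nonneg (by positivity)] at hX
    have h1 : 1 + Real.log X ≤ 1 / 10 * X ^ ((N : ℝ)⁻¹ / 6) := by linarith
    calc 10 ^ 6 * (1 + Real.log X) ^ 6 ≤ 10 ^ 6 * (1 / 10 * X ^ ((N : ℝ)⁻¹ / 6)) ^ 6 := by
          gcongr
      _ = (X ^ ((N : ℝ)⁻¹ / 6)) ^ 6 := by ring
      _ = X ^ ((N : ℝ)⁻¹) := by
          rw [← Real.rpow_natCast, ← Real.rpow_mul hX0.le]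
          congr 1
          push_cast
          ring
  obtain ⟨X₁, hX₁⟩ := eventually_atTop.1
    (((ht1.eventually_ge_atTop C).and (ht1.eventually_ge_atTop C')).and ht2)
  refine ⟨max X₁ 100, le_max_of_le_right (by norm_num), fun x hx Q hQ1 hQ2 a ha hax => ?_⟩
  have hx1 : X₁ ≤ x := (le_max_left _ _).trans hx
  have hx2 : 100 ≤ x := (le_max_right _ _).trans hx
  have hx0 : 0 < x := by linarith
  obtain ⟨⟨hCt, hCt'⟩, hLt⟩ := hX₁ (2 * x) (by linarith)
  obtain ⟨t, ht⟩ : ∃ t : ℝ, t = (2 * x) ^ ((N : ℝ)⁻¹) := ⟨_, rfl⟩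
  rw [← ht] at hCt hCt' hLt
  have ht1' : 1 ≤ t := hC1.trans hCt
  have ht0 : 0 < t := by linarith
  have hZ : 2 * x = t ^ (6 * m) := by
    rw [ht, ← hN, Real.rpow_inv_natCast_pow (by linarith) hN0]
  have htp : ∀ k : ℕ, t ^ k = (2 * x) ^ ((k : ℝ) / N) := by
    intro k
    rw [ht, ← Real.rpow_natCast, ← Real.rpow_mul (by linarith)]
    congr 1
    ring
  have hsm : ∀ k : ℕ, k ≤ 30 → t ^ k ≤ x ^ ε := by
    intro k hk
    rw [htp k]
    have hkr : (k : ℝ) ≤ 30 := by exact_mod_cast hk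
    have h1 : (k : ℝ) / N ≤ ε / 2 := by
      rw [div_le_iff₀ hNr]
      linarith
    calc (2 * x) ^ ((k : ℝ) / N) ≤ (x * x) ^ ((k : ℝ) / N) := by
          apply Real.rpow_le_rpow (by linarith) (by nlinarith) (by positivity)
      _ ≤ (x * x) ^ (ε / 2) := by
          apply Real.rpow_le_rpow_of_exponent_le (by nlinarith) h1
      _ = x ^ ε := by
          rw [Real.mul_rpow hx0.le hx0.le, ← Real.rpow_add hx0]
          congr 1
          ring
  have hQ1' : (1 : ℝ) ≤ Q := by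
    refine le_trans ?_ hQ1
    exact Real.one_le_rpow (by linarith) (by positivity)
  have hQ1n : 1 ≤ Q := by exact_mod_cast hQ1'
  have c1 : t ^ 10 * Q ≤ x := by
    calc t ^ 10 * Q ≤ x ^ ε * x ^ (1 - ε) := by
          gcongr
          exact hsm 10 (by norm_num)
      _ = x := by rw [← Real.rpow_add hx0, add_sub_cancel, Real.rpow_one]
  have c2 : x ≤ Q * t ^ (m - 21) := by
    have h1 : t ^ (m - 21) * t ^ 21 = (2 * x) ^ (1 / 6 : ℝ) := by
      rw [← pow_add, htp]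
      congr 1
      have h2 : m - 21 + 21 = m := by omega
      rw [h2, hN]
      push_cast
      have : (m : ℝ) ≠ 0 := by
        have : (0 : ℝ) < m := by exact_mod_cast (by omega : 0 < m)
        exact this.ne'
      field_simp
    have h3 : x ^ (1 / 6 : ℝ) ≤ t ^ (m - 21) * x ^ ε := by
      calc x ^ (1 / 6 : ℝ) ≤ (2 * x) ^ (1 / 6 : ℝ) := by
            apply Real.rpow_le_rpow hx0.le (by linarith) (by norm_num)
        _ = t ^ (m - 21) * t ^ 21 := h1.symm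
        _ ≤ _ := by
            gcongr
            exact hsm 21 (by norm_num)
    have h4 : x * x ^ ε ≤ Q * t ^ (m - 21) * x ^ ε := by
      calc x * x ^ ε = x ^ (5 / 6 + ε) * x ^ (1 / 6 : ℝ) := by
            rw [← Real.rpow_add hx0]
            nth_rewrite 1 [← Real.rpow_one x]
            rw [← Real.rpow_add hx0]
            congr 1
            ring
        _ ≤ Q * (t ^ (m - 21) * x ^ ε) := by gcongr
        _ = _ := by ring
    exact le_of_mul_le_mul_right h4 (by positivity)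
  have c3 : (2 : ℝ) ^ a.primeFactors.card ≤ t ^ 2 := by
    refine (hC' a ha).trans ?_
    calc C' * (a : ℝ) ^ ((N : ℝ)⁻¹) ≤ t * t := by
          apply mul_le_mul hCt' _ (by positivity) ht0.le
          rw [ht]
          apply Real.rpow_le_rpow (by positivity) (by linarith) (by positivity)
      _ = t ^ 2 := by ring
  have h := hcore m Q a t (1 + Real.log (2 * x)) x hm hZ rfl hLt hCt hQ1n c1 c2 ha hax c3
  refine h.trans ?_
  have hV0 : 0 ≤ ∑ q ∈ (Ioc Q (2 * Q)).filter (fun q => q.Coprime a),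
      ∫ u in x..(2 * x), Er q a u ^ 2 := by
    apply sum_nonneg
    intro q _
    apply intervalIntegral.integral_nonneg (by linarith)
    intro u _
    positivity
  apply mul_le_mul_of_nonneg_right _ hV0
  have hlog : 4 ≤ Real.log x := by
    rw [Real.le_log_iff_exp_le hx0]
    have h1 := Real.exp_one_lt_d9
    have : Real.exp 4 = Real.exp 1 ^ 4 := by
      rw [← Real.exp_nat_mul]
      norm_num
    rw [this]
    calc Real.exp 1 ^ 4 ≤ (2.7182818286) ^ 4 := by gcongr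
      _ ≤ 100 := by norm_num
      _ ≤ x := hx2
  have hlog2 : 1 + Real.log (2 * x) ≤ 3 / 2 * Real.log x := by
    rw [Real.log_mul (by norm_num) hx0.ne']
    have := Real.log_two_lt_d9
    linarith
  have hl0 : 0 ≤ 1 + Real.log (2 * x) := by
    have := Real.log_nonneg (show (1 : ℝ) ≤ 2 * x by linarith)
    linarith
  calc 10 ^ 12 * (1 + Real.log (2 * x)) ^ 2 ≤ 10 ^ 12 * (3 / 2 * Real.log x) ^ 2 := by gcongr
    _ = (10 ^ 12 * (9 / 4)) * Real.log x ^ 2 := by ring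
    _ ≤ 10 ^ 13 * Real.log x ^ 2 := by
        gcongr
        norm_num

end Pool.Agent.D0H44.FR
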